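import Mathlib

/-!
Steiner systems on finite abelian groups invariant under `x ↦ b + x` and `x ↦ b - x`: basics.
-/

set_option autoImplicit false

namespace Pool.Agent.W839.Dih

open Finset

/-- `𝓑` is a Steiner system on the point set `V`: blocks of size `q`, every `r`-subset of `V` lies
in exactly one block. -/
def IsSteinerOn (V : Type*) (q r : ℕ) (𝓑 : Finset (Finset V)) : Prop :=
  (∀ B ∈ 𝓑, B.card = q) ∧ ∀ T : Finset V, T.card = r → ∃! B, B ∈ 𝓑 ∧ T ⊆ B

/-- `𝓑` is invariant under all maps `x ↦ b + x` and `x ↦ b - x`. -/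
def Inv {G : Type*} [AddCommGroup G] [DecidableEq G] (𝓑 : Finset (Finset G)) : Prop :=
  ∀ B ∈ 𝓑, ∀ b : G, B.image (fun x => b + x) ∈ 𝓑 ∧ B.image (fun x => b - x) ∈ 𝓑

section basics

theorem eq_of_common {G : Type*} {q r : ℕ} {𝓑 : Finset (Finset G)}
    (hS : IsSteinerOn G q r 𝓑) {B B' T : Finset G} (hB : B ∈ 𝓑) (hB' : B' ∈ 𝓑)
    (hT : T ⊆ B) (hT' : T ⊆ B') (hr : r ≤ T.card) : B = B' := by
  obtain ⟨T0, hT0, hc⟩ := exists_subset_card_eq hr
  exact (hS.2 T0 hc).unique ⟨hB, hT0.trans hT⟩ ⟨hB', hT0.trans hT'⟩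

variable {G : Type*} [AddCommGroup G] [DecidableEq G] {q r : ℕ}
  {𝓑 : Finset (Finset G)}

theorem refl_stable (hS : IsSteinerOn G q r 𝓑) (hI : Inv 𝓑) {B T : Finset G} (hB : B ∈ 𝓑)
    (hT : T ⊆ B) (hr : r ≤ T.card) {b : G} (hTb : ∀ x ∈ T, b - x ∈ T) :
    ∀ x ∈ B, b - x ∈ B := by
  have h : B = B.image (fun x => b - x) := by
    refine eq_of_common hS hB (hI B hB b).2 hT ?_ hr
    intro x hx
    exact mem_image.2 ⟨b - x, hT (hTb x hx), by abel⟩
  intro x hx
  rw [h]
  exact mem_image.2 ⟨x, hx, rfl⟩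

theorem trans_stable (hS : IsSteinerOn G q r 𝓑) (hI : Inv 𝓑) {B T : Finset G} (hB : B ∈ 𝓑)
    (hT : T ⊆ B) (hr : r ≤ T.card) {b : G} (hTb : ∀ x ∈ T, -b + x ∈ T) :
    ∀ x ∈ B, b + x ∈ B := by
  have h : B = B.image (fun x => b + x) := by
    refine eq_of_common hS hB (hI B hB b).1 hT ?_ hr
    intro x hx
    exact mem_image.2 ⟨-b + x, hT (hTb x hx), by abel⟩
  intro x hx
  rw [h]
  exact mem_image.2 ⟨x, hx, rfl⟩

end basics

section odd

variable {G : Type*} [AddCommGroup G] [Fintype G]

theorem double_inj (hodd : Odd (Fintype.card G)) {x y : G} (h : x + x = y + y) : x = y := by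
  have h2 : 2 • (x - y) = 0 := by
    rw [two_nsmul]
    have : x - y + (x - y) = (x + x) - (y + y) := by abel
    rw [this, h, sub_self]
  have h3 : addOrderOf (x - y) ∣ 2 := addOrderOf_dvd_of_nsmul_eq_zero h2
  have h4 : addOrderOf (x - y) ∣ Fintype.card G := addOrderOf_dvd_card
  have h5 : addOrderOf (x - y) ∣ Nat.gcd 2 (Fintype.card G) := Nat.dvd_gcd h3 h4
  have h6 : Nat.gcd 2 (Fintype.card G) = 1 := by
    rw [Nat.coprime_two_left.2 hodd]
  rw [h6, Nat.dvd_one, AddMonoid.addOrderOf_eq_one_iff] at h5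
  exact sub_eq_zero.1 h5

theorem center_mem [DecidableEq G] (hodd : Odd (Fintype.card G)) {B : Finset G} (hq : Odd B.card)
    {b c : G} (hB : ∀ x ∈ B, b - x ∈ B) (hc : c + c = b) : c ∈ B := by
  by_contra hcB
  have hsum : ∑ _x ∈ B, (1 : ZMod 2) = 0 := by
    refine Finset.sum_involution (fun x _ => b - x) ?_ ?_ ?_ ?_
    · intro x hx
      decide
    · intro x hx _ h
      have : x = c := by
        apply double_inj hodd
        rw [hc]
        nth_rewrite 1 [← h]
        abel
      exact hcB (this ▸ hx)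
    · intro x hx
      exact hB x hx
    · intro x hx
      simp
  rw [Finset.sum_const, nsmul_eq_mul, mul_one, ZMod.natCast_eq_zero_iff_even] at hsum
  exact (Nat.not_even_iff_odd.2 hq) hsum

theorem exists_half (hodd : Odd (Fintype.card G)) (b : G) :
    ∃ m : ℕ, (m • b) + (m • b) = b := by
  obtain ⟨k, hk⟩ := hodd
  refine ⟨k + 1, ?_⟩
  rw [← add_nsmul]
  have : k + 1 + (k + 1) = Fintype.card G + 1 := by omega
  rw [this, succ_nsmul, card_nsmul_eq_zero, zero_add]

theorem exists_symm [DecidableEq G] (hodd : Odd (Fintype.card G)) :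
    ∀ s : ℕ, 2 * s + 1 ≤ Fintype.card G →
      ∃ K : Finset G, K.card = 2 * s ∧ (0 : G) ∉ K ∧ ∀ x ∈ K, -x ∈ K := by
  intro s
  induction s with
  | zero => intro _; exact ⟨∅, by simp, by simp, by simp⟩
  | succ s ih =>
    intro h
    obtain ⟨K, hK, h0, hn⟩ := ih (by omega)
    have hex : ∃ a, a ∉ insert (0 : G) K := by
      by_contra hall
      push Not at hall
      have : (insert (0 : G) K) = univ := by
        ext a; simp [hall a]
      have h1 : (insert (0 : G) K).card = 2 * s + 1 := by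
        rw [card_insert_of_notMem h0, hK]
      rw [this, card_univ] at h1
      omega
    obtain ⟨a, ha⟩ := hex
    rw [mem_insert, not_or] at ha
    obtain ⟨ha0, haK⟩ := ha
    have hna : -a ∉ K := fun h => haK (by simpa using hn _ h)
    have hne : a ≠ -a := by
      intro h
      apply ha0
      apply double_inj hodd
      rw [add_zero]
      nth_rewrite 2 [h]
      exact add_neg_cancel a
    refine ⟨insert a (insert (-a) K), ?_, ?_, ?_⟩
    · rw [card_insert_of_notMem, card_insert_of_notMem hna, hK]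
      · omega
      · rw [mem_insert, not_or]; exact ⟨hne, haK⟩
    · rw [mem_insert, mem_insert, not_or, not_or]
      exact ⟨Ne.symm ha0, fun h => ha0 (by rw [← neg_eq_zero]; exact h.symm), h0⟩
    · intro x hx
      rw [mem_insert, mem_insert] at hx ⊢
      rcases hx with rfl | rfl | hx
      · right; left; rfl
      · left; simp
      · right; right; exact hn x hx

theorem card_preimage_mk' {G : Type*} [AddGroup G] (s : AddSubgroup G) (t : Set (G ⧸ s)) :
    Nat.card ((QuotientAddGroup.mk : G → G ⧸ s) ⁻¹' t) = Nat.card s * Nat.card t := by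
  rw [← Nat.card_prod, Nat.card_congr (QuotientAddGroup.preimageMkEquivAddSubgroupProdSet _ _)]

/-- a set stable under adding `g` has cardinality divisible by the order of `g` -/
theorem order_dvd {B : Finset G} {g : G} (hB : ∀ x ∈ B, g + x ∈ B) : addOrderOf g ∣ B.card := by
  classical
  have hn : ∀ n : ℕ, ∀ x ∈ B, n • g + x ∈ B := by
    intro n
    induction n with
    | zero => intro x hx; simpa using hx
    | succ n ih =>
      intro x hx
      have := hB _ (ih x hx)
      rw [← add_assoc] at this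
      rwa [succ_nsmul, add_comm (n • g) g]
  let H := AddSubgroup.zmultiples g
  let π : G → G ⧸ H := QuotientAddGroup.mk
  have hpre : (π ⁻¹' (π '' (B : Set G))) = (B : Set G) := by
    apply Set.Subset.antisymm
    · rintro x ⟨y, hy, hxy⟩
      have h1 : -y + x ∈ H := QuotientAddGroup.eq.1 hxy
      obtain ⟨k, hk⟩ := AddSubgroup.mem_zmultiples_iff.1 h1
      obtain ⟨n, hn'⟩ : ∃ n : ℕ, n • g = k • g := by
        have : k • g ∈ AddSubgroup.zmultiples g := AddSubgroup.mem_zmultiples_iff.2 ⟨k, rfl⟩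
        rw [← mem_multiples_iff_mem_zmultiples] at this
        exact (AddSubmonoid.mem_multiples_iff _ _).1 this
      have hx : x = n • g + y := by
        rw [hn', hk]; abel
      rw [hx]
      exact hn n y hy
    · exact Set.subset_preimage_image _ _
  have hcard := card_preimage_mk' H (π '' (B : Set G))
  have h2 : Nat.card ((QuotientAddGroup.mk : G → G ⧸ H) ⁻¹' (π '' (B : Set G))) = B.card := by
    change Nat.card (π ⁻¹' (π '' (B : Set G))) = B.card
    rw [hpre]
    simp
  rw [h2] at hcard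
  rw [hcard, ← Nat.card_zmultiples]
  exact dvd_mul_right _ _

end odd

end Pool.Agent.W839.Dih
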