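import Mathlib

/-!
Partitions of a finite abelian group into subgroups of the same order.
-/

set_option autoImplicit false

namespace Pool.Agent.W839.Dih

open Finset

variable {G : Type*} [AddCommGroup G] [Fintype G]

/-- A finite abelian group partitioned into proper subgroups of the same order `q > 1` is
elementary abelian, and its order is a power of `q`. -/
theorem partition_structure {q : ℕ} (hq : 1 < q) (hqn : q < Fintype.card G)
    (P : G → AddSubgroup G) (hPc : ∀ g, g ≠ 0 → Nat.card (P g) = q)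
    (hPm : ∀ g, g ≠ 0 → g ∈ P g) (hPe : ∀ g h, g ≠ 0 → h ≠ 0 → h ∈ P g → P h = P g) :
    ∃ p e k : ℕ, p.Prime ∧ q = p ^ e ∧ Fintype.card G = q ^ k ∧ ∀ g : G, p • g = 0 := by
  classical
  have key : ∀ x y : G, x ≠ 0 → y ≠ 0 → P x ≠ P y → ∀ m : ℕ, m • x = 0 → m • y = 0 := by
    intro x y hx hy hP m hm
    by_contra hmy
    have hz : x + y ≠ 0 := by
      intro h
      have hyx : y = -x := by rw [eq_neg_iff_add_eq_zero, add_comm]; exact h
      have : y ∈ P x := by rw [hyx]; exact neg_mem (hPm x hx)
      exact hP (hPe x y hx hy this).symm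
    have hmz : m • (x + y) = m • y := by rw [nsmul_add, hm, zero_add]
    have h1 : m • y ∈ P (x + y) := by
      rw [← hmz]; exact nsmul_mem (hPm _ hz) m
    have h2 : m • y ∈ P y := nsmul_mem (hPm _ hy) m
    have h3 : P (x + y) = P y := by
      rw [← hPe (x + y) (m • y) hz hmy h1, hPe y (m • y) hy hmy h2]
    have h4 : x ∈ P y := by
      have : x = (x + y) - y := by abel
      rw [this]
      refine sub_mem ?_ (hPm y hy)
      rw [← h3]; exact hPm _ hz
    exact hP (hPe y x hy hx h4)
  have out : ∀ x : G, x ≠ 0 → ∃ z : G, z ≠ 0 ∧ P z ≠ P x := by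
    intro x hx
    have : ∃ z : G, z ∉ P x := by
      by_contra h
      push Not at h
      have htop : P x = ⊤ := by
        rw [eq_top_iff]; intro z _; exact h z
      have h1 := hPc x hx
      rw [htop, AddSubgroup.card_top, Nat.card_eq_fintype_card] at h1
      omega
    obtain ⟨z, hz⟩ := this
    have hz0 : z ≠ 0 := by
      rintro rfl; exact hz (zero_mem _)
    refine ⟨z, hz0, fun h => hz ?_⟩
    rw [← h]; exact hPm z hz0
  have ord1 : ∀ x y : G, x ≠ 0 → y ≠ 0 → P x ≠ P y → addOrderOf x = addOrderOf y := by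
    intro x y hx hy hP
    refine Nat.dvd_antisymm ?_ ?_
    · exact addOrderOf_dvd_of_nsmul_eq_zero (key y x hy hx hP.symm _ (addOrderOf_nsmul_eq_zero y))
    · exact addOrderOf_dvd_of_nsmul_eq_zero (key x y hx hy hP _ (addOrderOf_nsmul_eq_zero x))
  have ord2 : ∀ x y : G, x ≠ 0 → y ≠ 0 → addOrderOf x = addOrderOf y := by
    intro x y hx hy
    by_cases hP : P x = P y
    · obtain ⟨z, hz, hPz⟩ := out x hx
      rw [ord1 x z hx hz hPz.symm, ord1 y z hy hz (by rw [← hP]; exact hPz.symm)]
    · exact ord1 x y hx hy hP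
  obtain ⟨x, hx⟩ : ∃ x : G, x ≠ 0 := by
    have : Nontrivial G := Fintype.one_lt_card_iff_nontrivial.1 (by omega)
    exact exists_ne 0
  set N := addOrderOf x with hN
  have hNpos : 0 < N := addOrderOf_pos x
  have hN1 : N ≠ 1 := by
    intro h; rw [hN, AddMonoid.addOrderOf_eq_one_iff] at h; exact hx h
  set p := N.minFac with hp
  have hpp : p.Prime := Nat.minFac_prime hN1
  have hall : ∀ g : G, p • g = 0 := by
    intro g
    by_cases hg : g = 0
    · rw [hg, nsmul_zero]
    obtain ⟨m, hm⟩ := Nat.minFac_dvd N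
    have hmx : addOrderOf (m • x) = p := by
      have hm0 : m ≠ 0 := by rintro rfl; omega
      rw [addOrderOf_nsmul' x hm0, ← hN]
      have : Nat.gcd N m = m := Nat.gcd_eq_right ⟨p, by rw [hm, mul_comm, hp]⟩
      rw [this]
      exact Nat.div_eq_of_eq_mul_left (Nat.pos_of_ne_zero hm0) hm
    have hmx0 : m • x ≠ 0 := by
      intro h
      rw [h, addOrderOf_zero] at hmx
      exact hpp.one_lt.ne hmx
    have := ord2 g (m • x) hg hmx0
    rw [hmx] at this
    rw [← this]
    exact addOrderOf_nsmul_eq_zero g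
  haveI : Fact p.Prime := ⟨hpp⟩
  letI : Module (ZMod p) G := AddCommGroup.zmodModule hall
  have hcard : Fintype.card G = p ^ (Module.finrank (ZMod p) G) := by
    rw [Module.card_eq_pow_finrank (K := ZMod p) (V := G), ZMod.card]
  set f := Module.finrank (ZMod p) G with hf
  have hqd : q ∣ p ^ f := by
    rw [← hcard, ← hPc x hx, ← Nat.card_eq_fintype_card]
    exact AddSubgroup.card_addSubgroup_dvd_card _
  obtain ⟨e, _, he⟩ := (Nat.dvd_prime_pow hpp).1 hqd
  have hdiv : (q - 1) ∣ (Fintype.card G - 1) := by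
    have h1 : (univ.erase (0 : G)).card = Fintype.card G - 1 := by
      rw [card_erase_of_mem (mem_univ _), card_univ]
    rw [← h1, Finset.card_eq_sum_card_image P]
    refine Finset.dvd_sum fun H hH => ?_
    obtain ⟨g, hg, rfl⟩ := Finset.mem_image.1 hH
    have hg0 : g ≠ 0 := (Finset.mem_erase.1 hg).1
    have : (univ.erase (0 : G)).filter (fun a => P a = P g) =
        (univ.filter (fun a => a ∈ P g)).erase 0 := by
      ext a
      simp only [mem_filter, mem_erase, mem_univ, and_true, true_and]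
      constructor
      · rintro ⟨ha, hPa⟩
        exact ⟨ha, hPa ▸ hPm a ha⟩
      · rintro ⟨ha, hPa⟩
        exact ⟨ha, hPe g a hg0 ha hPa⟩
    rw [this, card_erase_of_mem (by simp [zero_mem])]
    have h2 : (univ.filter (fun a => a ∈ P g)).card = q := by
      rw [← hPc g hg0, Nat.card_eq_fintype_card, Fintype.card_subtype]
    rw [h2]
  have hgcd : e ∣ f := by
    rw [hcard, he] at hdiv
    have h1 := Nat.pow_sub_one_gcd_pow_sub_one p e f
    rw [Nat.gcd_eq_left hdiv] at h1
    have hp2 := hpp.two_le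
    have h2 : p ^ e = p ^ (Nat.gcd e f) := by
      have h3 : 0 < p ^ e := Nat.pow_pos (by omega)
      have h4 : 0 < p ^ (Nat.gcd e f) := Nat.pow_pos (by omega)
      omega
    have h5 := Nat.pow_right_injective hp2 h2
    rw [h5]; exact Nat.gcd_dvd_right _ _
  obtain ⟨k, hk⟩ := hgcd
  exact ⟨p, e, k, hpp, he, by rw [hcard, hk, he, pow_mul], hall⟩

end Pool.Agent.W839.Dih
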