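import Pool.Agent.w839.DihMain
import Pool.Agent.w839.DihPart

/-!
The structure theorem and the affine examples.
-/

set_option autoImplicit false

namespace Pool.Agent.W839.Dih

open Finset

section struct

variable {G : Type*} [AddCommGroup G] [Fintype G] [DecidableEq G] {q r : ℕ}
  {𝓑 : Finset (Finset G)}

theorem structure_of_stable (hS : IsSteinerOn G q r 𝓑) (hI : Inv 𝓑) (hq : 1 < q)
    (hqn : q < Fintype.card G)
    (hgood : ∀ g : G, g ≠ 0 → ∃ B ∈ 𝓑, (0 : G) ∈ B ∧ ∀ x ∈ B, g + x ∈ B)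
    (hord : ∀ g : G, g ≠ 0 → r ≤ addOrderOf g) :
    ∃ p e k : ℕ, p.Prime ∧ q = p ^ e ∧ Fintype.card G = q ^ k ∧ ∀ g : G, p • g = 0 := by
  classical
  choose! Bl hBl h0 hst using hgood
  -- the cyclic subgroup inside the block
  have hcyc : ∀ g : G, ∀ B : Finset G, (∀ x ∈ B, g + x ∈ B) → ∀ x ∈ B, ∀ i : ℕ,
      i • g + x ∈ B := by
    intro g B hB x hx i
    induction i with
    | zero => simpa using hx
    | succ i ih =>
      have := hB _ ih
      rw [← add_assoc] at this
      rwa [succ_nsmul, add_comm (i • g) g]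
  have hTcard : ∀ g : G, (seg g (0 : G) (Ico 0 (addOrderOf g : ℤ))).card = addOrderOf g := by
    intro g
    rw [card_seg 0]
    · rw [Int.card_Ico]; simp
    · intro i hi
      rw [mem_Ico] at hi
      constructor
      · exact hi.1
      · omega
  have hTsub : ∀ g : G, ∀ B : Finset G, (0 : G) ∈ B → (∀ x ∈ B, g + x ∈ B) →
      seg g (0 : G) (Ico 0 (addOrderOf g : ℤ)) ⊆ B := by
    intro g B h0 hB x hx
    obtain ⟨i, hi, rfl⟩ := mem_seg.1 hx
    rw [mem_Ico] at hi
    obtain ⟨m, rfl⟩ := Int.eq_ofNat_of_zero_le hi.1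
    have := hcyc g B hB 0 h0 m
    rw [add_zero] at this
    rw [zero_add]
    simpa using this
  have huniq : ∀ g : G, g ≠ 0 → ∀ B ∈ 𝓑, ∀ B' ∈ 𝓑, (0 : G) ∈ B → (0 : G) ∈ B' →
      (∀ x ∈ B, g + x ∈ B) → (∀ x ∈ B', g + x ∈ B') → B = B' := by
    intro g hg B hB B' hB' h0 h0' hb hb'
    exact eq_of_common hS hB hB' (hTsub g B h0 hb) (hTsub g B' h0' hb')
      (by rw [hTcard]; exact hord g hg)
  have hsub : ∀ g : G, g ≠ 0 → ∀ x ∈ Bl g, ∀ z ∈ Bl g, -x + z ∈ Bl g := by
    intro g hg x hx z hz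
    have h1 := (hI (Bl g) (hBl g hg) (-x)).1
    have h2 : (0 : G) ∈ (Bl g).image (fun y => -x + y) := mem_image.2 ⟨x, hx, by abel⟩
    have h3 : ∀ y ∈ (Bl g).image (fun y => -x + y), g + y ∈ (Bl g).image (fun y => -x + y) := by
      intro y hy
      obtain ⟨w, hw, rfl⟩ := mem_image.1 hy
      exact mem_image.2 ⟨g + w, hst g hg w hw, by abel⟩
    have h4 := huniq g hg _ h1 (Bl g) (hBl g hg) h2 (h0 g hg) h3 (hst g hg)
    rw [← h4]
    exact mem_image.2 ⟨z, hz, rfl⟩
  have hneg : ∀ g : G, g ≠ 0 → ∀ x ∈ Bl g, -x ∈ Bl g := by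
    intro g hg x hx
    have := hsub g hg x hx 0 (h0 g hg)
    rwa [add_zero] at this
  have hadd : ∀ g : G, g ≠ 0 → ∀ x ∈ Bl g, ∀ y ∈ Bl g, x + y ∈ Bl g := by
    intro g hg x hx y hy
    have := hsub g hg (-x) (hneg g hg x hx) y hy
    rwa [neg_neg] at this
  let P : G → AddSubgroup G := fun g =>
    if hg : g ≠ 0 then
      { carrier := {x | x ∈ Bl g}
        add_mem' := fun {x y} hx hy => hadd g hg x hx y hy
        zero_mem' := h0 g hg
        neg_mem' := fun {x} hx => hneg g hg x hx }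
    else ⊥
  have hPmem : ∀ g : G, g ≠ 0 → ∀ x, x ∈ P g ↔ x ∈ Bl g := by
    intro g hg x
    simp only [P, dif_pos hg]
    rfl
  refine partition_structure hq hqn P ?_ ?_ ?_
  · intro g hg
    have h1 : ((P g : AddSubgroup G) : Set G) = (Bl g : Set G) := by
      ext x; exact hPmem g hg x
    have h2 : Nat.card (P g) = Nat.card ((P g : AddSubgroup G) : Set G) := rfl
    rw [h2, h1]
    simp [hS.1 _ (hBl g hg)]
  · intro g hg
    rw [hPmem g hg]
    have := hst g hg 0 (h0 g hg)
    rwa [add_zero] at this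
  · intro g h hg hh hhg
    rw [hPmem g hg] at hhg
    have h1 : Bl h = Bl g := huniq h hh _ (hBl h hh) _ (hBl g hg) (h0 h hh) (h0 g hg) (hst h hh)
      (fun x hx => hadd g hg h hhg x hx)
    ext x
    rw [hPmem g hg, hPmem h hh, h1]

/-- In strength `2` every nonzero `g` stabilises the block through `0` and `g`. -/
theorem good_two (hS : IsSteinerOn G q 2 𝓑) (hI : Inv 𝓑) (hq : 3 ≤ q) (g : G) (hg : g ≠ 0) :
    ∃ B ∈ 𝓑, (0 : G) ∈ B ∧ ∀ x ∈ B, g + x ∈ B := by
  classical
  have pairc : ∀ x y : G, x ≠ y → ({x, y} : Finset G).card = 2 := fun x y h => card_pair h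
  obtain ⟨B, ⟨hB, hsub⟩, _⟩ := hS.2 {0, g} (pairc 0 g (Ne.symm hg))
  have h0 : (0 : G) ∈ B := hsub (by simp)
  have hgB : g ∈ B := hsub (by simp)
  have hc : ∃ y ∈ B, y ∉ ({0, g} : Finset G) := by
    by_contra h
    push Not at h
    have h1 : B ⊆ {0, g} := h
    have h2 := card_le_card h1
    rw [hS.1 B hB, pairc 0 g (Ne.symm hg)] at h2
    omega
  obtain ⟨y, hy, hyn⟩ := hc
  rw [mem_insert, mem_singleton, not_or] at hyn
  obtain ⟨hy0, hyg⟩ := hyn
  have refl : ∀ u v : G, u ≠ v → u ∈ B → v ∈ B → ∀ x ∈ B, u + v - x ∈ B := by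
    intro u v huv hu hv
    refine refl_stable hS hI hB (T := {u, v}) ?_ ?_ ?_
    · intro x hx
      rw [mem_insert, mem_singleton] at hx
      rcases hx with rfl | rfl
      · exact hu
      · exact hv
    · rw [pairc u v huv]
    · intro x hx
      rw [mem_insert, mem_singleton] at hx ⊢
      rcases hx with rfl | rfl
      · right; abel
      · left; abel
  refine ⟨B, hB, h0, fun x hx => ?_⟩
  have h1 := refl 0 y (Ne.symm hy0) h0 hy x hx
  have h2 := refl g y (Ne.symm hyg) hgB hy _ h1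
  have h3 : g + y - (0 + y - x) = g + x := by abel
  rwa [h3] at h2

theorem order_ge (hp : ∀ p : ℕ, p.Prime → p ∣ Fintype.card G → r < p) (g : G) (hg : g ≠ 0) :
    r ≤ addOrderOf g := by
  have h1 : addOrderOf g ≠ 1 := by
    rw [Ne, AddMonoid.addOrderOf_eq_one_iff]; exact hg
  have h2 := hp _ (Nat.minFac_prime h1) ((Nat.minFac_dvd _).trans addOrderOf_dvd_card)
  have h3 := Nat.minFac_le (addOrderOf_pos g)
  omega

/-- in a Steiner system with `q = r + 1` and `r` even the number of points is odd -/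
theorem odd_card (hS : IsSteinerOn G (r + 1) r 𝓑) (hr : Even r) (hr2 : 2 ≤ r)
    (hqn : r + 1 < Fintype.card G) : Odd (Fintype.card G) := by
  classical
  obtain ⟨A, _, hA⟩ := exists_subset_card_eq (s := (univ : Finset G)) (n := r - 1)
    (by rw [card_univ]; omega)
  have h1 : ∀ x ∈ univ \ A, (𝓑.filter fun B => insert x A ⊆ B).card = 1 := by
    intro x hx
    have hxA : x ∉ A := (mem_sdiff.1 hx).2
    obtain ⟨B, ⟨hB, hsub⟩, hu⟩ := hS.2 (insert x A) (by rw [card_insert_of_notMem hxA, hA]; omega)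
    rw [card_eq_one]
    refine ⟨B, ?_⟩
    ext B'
    rw [mem_filter, mem_singleton]
    constructor
    · intro h; exact hu B' h
    · rintro rfl; exact ⟨hB, hsub⟩
  have h2 : ∑ x ∈ univ \ A, (𝓑.filter fun B => insert x A ⊆ B).card = (univ \ A).card := by
    rw [sum_congr rfl h1, sum_const, smul_eq_mul, mul_one]
  have h3 : ∑ x ∈ univ \ A, (𝓑.filter fun B => insert x A ⊆ B).card =
      ∑ B ∈ 𝓑, ((univ \ A).filter fun x => insert x A ⊆ B).card := by
    simp only [card_filter]
    exact sum_comm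
  have h4 : ∀ B ∈ 𝓑, Even ((univ \ A).filter fun x => insert x A ⊆ B).card := by
    intro B hB
    by_cases hAB : A ⊆ B
    · have : ((univ \ A).filter fun x => insert x A ⊆ B) = B \ A := by
        ext x
        simp only [mem_filter, mem_sdiff, mem_univ, true_and, insert_subset_iff]
        tauto
      rw [this, card_sdiff_of_subset hAB, hS.1 B hB, hA]
      exact ⟨1, by omega⟩
    · have : ((univ \ A).filter fun x => insert x A ⊆ B) = ∅ := by
        rw [filter_eq_empty_iff]
        intro x _ h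
        exact hAB ((subset_insert x A).trans h)
      rw [this]; simp
  have h5 : Even (univ \ A).card := by
    rw [← h2, h3]
    exact Finset.even_sum _ h4
  rw [card_sdiff_of_subset (subset_univ A), card_univ, hA] at h5
  obtain ⟨a, ha⟩ := h5
  obtain ⟨b, hb⟩ := hr
  exact ⟨a + b - 1, by omega⟩

end struct

section affine

variable {K : Type*} [Field K] [Fintype K] [DecidableEq K] {k : ℕ}

/-- the line through `a` with direction `v` -/
def aline (a v : Fin k → K) : Finset (Fin k → K) := univ.image fun t : K => a + t • v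

theorem mem_aline {a v x : Fin k → K} : x ∈ aline a v ↔ ∃ t : K, a + t • v = x := by
  simp [aline]

/-- the set of all lines -/
def lines (K : Type*) [Field K] [Fintype K] [DecidableEq K] (k : ℕ) :
    Finset (Finset (Fin k → K)) :=
  (univ.filter fun w : (Fin k → K) × (Fin k → K) => w.2 ≠ 0).image fun w => aline w.1 w.2

theorem mem_lines {B : Finset (Fin k → K)} :
    B ∈ lines K k ↔ ∃ a v : Fin k → K, v ≠ 0 ∧ aline a v = B := by
  simp [lines]

theorem lines_steiner : IsSteinerOn (Fin k → K) (Fintype.card K) 2 (lines K k) := by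
  constructor
  · intro B hB
    obtain ⟨a, v, hv, rfl⟩ := mem_lines.1 hB
    rw [aline, card_image_of_injective, card_univ]
    intro s t hst
    have h1 : s • v = t • v := add_left_cancel hst
    have h2 : (s - t) • v = 0 := by rw [sub_smul, h1, sub_self]
    rcases smul_eq_zero.1 h2 with h | h
    · exact sub_eq_zero.1 h
    · exact absurd h hv
  · intro T hT
    obtain ⟨x, y, hxy, rfl⟩ := card_eq_two.1 hT
    refine ⟨aline x (y - x), ⟨mem_lines.2 ⟨x, y - x, sub_ne_zero.2 (Ne.symm hxy), rfl⟩, ?_⟩, ?_⟩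
    · intro z hz
      rw [mem_insert, mem_singleton] at hz
      rcases hz with rfl | rfl
      · exact mem_aline.2 ⟨0, by simp⟩
      · exact mem_aline.2 ⟨1, by simp⟩
    · rintro B ⟨hB, hsub⟩
      obtain ⟨a, v, hv, rfl⟩ := mem_lines.1 hB
      obtain ⟨s, hs⟩ := mem_aline.1 (hsub (show x ∈ ({x, y} : Finset _) by simp))
      obtain ⟨t, ht⟩ := mem_aline.1 (hsub (show y ∈ ({x, y} : Finset _) by simp))
      have hd : y - x = (t - s) • v := by
        rw [← hs, ← ht, sub_smul]; abel
      have hts : t - s ≠ 0 := by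
        intro h
        rw [h, zero_smul, sub_eq_zero] at hd
        exact hxy hd.symm
      ext z
      rw [mem_aline, mem_aline]
      constructor
      · rintro ⟨c, rfl⟩
        refine ⟨(c - s) / (t - s), ?_⟩
        rw [hd, smul_smul, div_mul_cancel₀ _ hts, ← hs, sub_smul]
        abel
      · rintro ⟨c, rfl⟩
        refine ⟨s + c * (t - s), ?_⟩
        rw [hd, ← hs, add_smul, smul_smul]
        abel

theorem lines_inv : Inv (lines K k) := by
  intro B hB b
  obtain ⟨a, v, hv, rfl⟩ := mem_lines.1 hB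
  constructor
  · refine mem_lines.2 ⟨b + a, v, hv, ?_⟩
    ext z
    rw [mem_aline, mem_image]
    constructor
    · rintro ⟨t, rfl⟩
      exact ⟨a + t • v, mem_aline.2 ⟨t, rfl⟩, by abel⟩
    · rintro ⟨w, hw, rfl⟩
      obtain ⟨t, rfl⟩ := mem_aline.1 hw
      exact ⟨t, by abel⟩
  · refine mem_lines.2 ⟨b - a, -v, neg_ne_zero.2 hv, ?_⟩
    ext z
    rw [mem_aline, mem_image]
    constructor
    · rintro ⟨t, rfl⟩
      refine ⟨a + t • v, mem_aline.2 ⟨t, rfl⟩, ?_⟩
      rw [smul_neg]; abel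
    · rintro ⟨w, hw, rfl⟩
      obtain ⟨t, rfl⟩ := mem_aline.1 hw
      refine ⟨t, ?_⟩
      rw [smul_neg]; abel

end affine

end Pool.Agent.W839.Dih
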