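import Pool.Agent.w839.DihPerm
import Pool.Agent.w839.DihStruct

/-!
Derived designs and the final versions of the statements.
-/

set_option autoImplicit false

namespace Pool.Agent.W839.Dih

open Finset

section derived

variable {V W : Type*} [Fintype V] [DecidableEq V] [Fintype W] [DecidableEq W] {q r : ℕ}
  {𝓑 : Finset (Finset V)}

/-- the derived design at `J` -/
def der (ι : W ↪ V) (J : Finset V) (𝓑 : Finset (Finset V)) : Finset (Finset W) :=
  univ.filter fun B' => B'.map ι ∪ J ∈ 𝓑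

omit [Fintype V] [DecidableEq W] in
theorem mem_der {ι : W ↪ V} {J : Finset V} {B' : Finset W} :
    B' ∈ der ι J 𝓑 ↔ B'.map ι ∪ J ∈ 𝓑 := by
  simp [der]

omit [Fintype V] [DecidableEq V] [Fintype W] [DecidableEq W] in
theorem disj_map {ι : W ↪ V} {J : Finset V} (hJ : ∀ x, x ∈ J ↔ x ∉ Set.range ι) (B' : Finset W) :
    Disjoint (B'.map ι) J := by
  rw [disjoint_left]
  intro x hx hxJ
  obtain ⟨w, _, rfl⟩ := mem_map.1 hx
  exact (hJ _).1 hxJ ⟨w, rfl⟩

omit [Fintype V] [DecidableEq W] in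
theorem derived {ι : W ↪ V} {J : Finset V} (hJ : ∀ x, x ∈ J ↔ x ∉ Set.range ι)
    (hS : IsSteinerOn V (q + J.card) (r + J.card) 𝓑) : IsSteinerOn W q r (der ι J 𝓑) := by
  constructor
  · intro B' hB'
    have h1 := hS.1 _ (mem_der.1 hB')
    rw [card_union_of_disjoint (disj_map hJ B'), card_map] at h1
    omega
  · intro T hT
    obtain ⟨B, ⟨hB, hsub⟩, hu⟩ := hS.2 (T.map ι ∪ J) (by
      rw [card_union_of_disjoint (disj_map hJ T), card_map, hT])
    have hBeq : ∀ B' : Finset W, B' = univ.filter (fun w => ι w ∈ B) → B'.map ι ∪ J = B := by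
      rintro B' rfl
      ext x
      rw [mem_union, mem_map]
      constructor
      · rintro (⟨w, hw, rfl⟩ | hx)
        · exact (mem_filter.1 hw).2
        · exact hsub (mem_union_right _ hx)
      · intro hx
        by_cases hxJ : x ∈ J
        · exact Or.inr hxJ
        · rw [hJ, not_not] at hxJ
          obtain ⟨w, rfl⟩ := hxJ
          exact Or.inl ⟨w, mem_filter.2 ⟨mem_univ _, hx⟩, rfl⟩
    refine ⟨univ.filter (fun w => ι w ∈ B), ⟨?_, ?_⟩, ?_⟩
    · rw [mem_der, hBeq _ rfl]; exact hB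
    · intro w hw
      exact mem_filter.2 ⟨mem_univ _, hsub (mem_union_left _ (mem_map_of_mem ι hw))⟩
    · rintro B' ⟨hB', hT'⟩
      have h1 := hu _ ⟨mem_der.1 hB', union_subset_union_left (map_subset_map.2 hT')⟩
      ext w
      rw [mem_filter]
      constructor
      · intro hw
        refine ⟨mem_univ _, ?_⟩
        rw [← h1]
        exact mem_union_left _ (mem_map_of_mem ι hw)
      · rintro ⟨_, hw⟩
        rw [← h1, mem_union] at hw
        rcases hw with hw | hw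
        · obtain ⟨w', hw', he⟩ := mem_map.1 hw
          exact ι.injective he ▸ hw'
        · exact absurd ⟨w, rfl⟩ ((hJ _).1 hw)

omit [Fintype V] in
theorem der_image {ι : W ↪ V} {J : Finset V} {f : V → V} {f' : W → W}
    (hf : ∀ w, f (ι w) = ι (f' w)) (hfJ : ∀ x ∈ J, f x = x)
    (hI : ∀ B ∈ 𝓑, B.image f ∈ 𝓑) : ∀ B' ∈ der ι J 𝓑, B'.image f' ∈ der ι J 𝓑 := by
  intro B' hB'
  rw [mem_der] at hB' ⊢
  have h1 : (B'.map ι ∪ J).image f = (B'.image f').map ι ∪ J := by
    ext x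
    simp only [mem_image, mem_union, mem_map]
    constructor
    · rintro ⟨y, hy | hy, rfl⟩
      · obtain ⟨w, hw, rfl⟩ := hy
        exact Or.inl ⟨f' w, ⟨w, hw, rfl⟩, (hf w).symm⟩
      · exact Or.inr (by rw [hfJ y hy]; exact hy)
    · rintro (⟨z, ⟨w, hw, rfl⟩, rfl⟩ | hx)
      · exact ⟨ι w, Or.inl ⟨w, hw, rfl⟩, hf w⟩
      · exact ⟨x, Or.inr hx, hfJ x hx⟩
  rw [← h1]
  exact hI _ hB'

end derived

section final

variable {V : Type*} [Fintype V] [DecidableEq V] {q r : ℕ} {𝓑 : Finset (Finset V)}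

/-- the general two-reversal theorem, with a set `J` of common fixed points -/
theorem two_reversals (J : Finset V) (hS : IsSteinerOn V (q + J.card) (r + J.card) 𝓑)
    (hr : Even r) (hq : Odd q) (hrq : r < q) (hn : q + J.card < Fintype.card V)
    (σ τ : Equiv.Perm V) (hσ : ∀ x, σ (σ x) = x) (hτ : ∀ x, τ (τ x) = x)
    (hσJ : ∀ x ∈ J, σ x = x) (hτJ : ∀ x ∈ J, τ x = x)
    (hfσ : ∃! x, x ∉ J ∧ σ x = x) (hfτ : ∃! x, x ∉ J ∧ τ x = x)
    (hσB : ∀ B ∈ 𝓑, B.image σ ∈ 𝓑) (hτB : ∀ B ∈ 𝓑, B.image τ ∈ 𝓑) :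
    (∃ B ∈ 𝓑, J ⊆ B ∧ (∀ x, σ x = x → x ∈ B) ∧ (∀ x, τ x = x → x ∈ B) ∧
      B.image σ = B ∧ B.image τ = B) ∧
    ∀ N : ℕ, (∀ x, x ∉ J → ∀ k : ℕ, ((τ * σ) ^ k) x = x ↔ N ∣ k) → N ∣ q := by
  classical
  obtain ⟨c, ⟨hcJ, hc⟩, hcu⟩ := hfσ
  obtain ⟨c', ⟨hcJ', hc'⟩, hcu'⟩ := hfτ
  let W := {x : V // x ∉ J}
  let ι : W ↪ V := Function.Embedding.subtype _
  have hι : ∀ w : W, ι w = w.1 := fun _ => rfl
  have hJ : ∀ x, x ∈ J ↔ x ∉ Set.range ι := by
    intro x
    constructor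
    · rintro hx ⟨w, rfl⟩
      exact w.2 hx
    · intro hx
      by_contra hxJ
      exact hx ⟨⟨x, hxJ⟩, rfl⟩
  have hσW : ∀ x, x ∉ J ↔ σ x ∉ J := by
    intro x
    constructor
    · intro hx h
      apply hx
      have h1 := hσJ _ h
      rw [hσ] at h1
      rwa [← h1] at h
    · intro hx h
      exact hx (by rwa [hσJ x h])
  have hτW : ∀ x, x ∉ J ↔ τ x ∉ J := by
    intro x
    constructor
    · intro hx h
      apply hx
      have h1 := hτJ _ h
      rw [hτ] at h1
      rwa [← h1] at h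
    · intro hx h
      exact hx (by rwa [hτJ x h])
  let σ' : Equiv.Perm W := σ.subtypePerm (fun x => (hσW x).symm)
  let τ' : Equiv.Perm W := τ.subtypePerm (fun x => (hτW x).symm)
  have hσ' : ∀ w : W, (σ' w).1 = σ w.1 := fun _ => rfl
  have hτ' : ∀ w : W, (τ' w).1 = τ w.1 := fun _ => rfl
  have hsym : Sym σ' τ' (⟨c, hcJ⟩ : W) (⟨c', hcJ'⟩ : W) := by
    refine ⟨?_, ?_, ?_, ?_⟩
    · intro w; apply Subtype.ext; rw [hσ', hσ', hσ]
    · intro w; apply Subtype.ext; rw [hτ', hτ', hτ]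
    · intro w
      constructor
      · intro h
        apply Subtype.ext
        exact hcu w.1 ⟨w.2, by rw [← hσ', h]⟩
      · rintro rfl
        apply Subtype.ext
        rw [hσ']; exact hc
    · intro w
      constructor
      · intro h
        apply Subtype.ext
        exact hcu' w.1 ⟨w.2, by rw [← hτ', h]⟩
      · rintro rfl
        apply Subtype.ext
        rw [hτ']; exact hc'
  have hSW := derived hJ hS
  have hWc : Fintype.card W = Fintype.card V - J.card := by
    have h1 := Fintype.card_subtype_compl (fun x : V => x ∈ J)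
    rw [Fintype.card_coe] at h1
    exact h1
  have hσD := der_image (𝓑 := 𝓑) (ι := ι) (J := J) (f := σ) (f' := σ') (fun _ => rfl) hσJ hσB
  have hτD := der_image (𝓑 := 𝓑) (ι := ι) (J := J) (f := τ) (f' := τ') (fun _ => rfl) hτJ hτB
  obtain ⟨B, hB, hcB, hcB', hBσ, hBτ⟩ := hsym.common_block hSW hσD hτD hr hq (by omega)
  constructor
  · refine ⟨B.map ι ∪ J, mem_der.1 hB, subset_union_right, ?_, ?_, ?_, ?_⟩
    · intro x hx
      by_cases hxJ : x ∈ J
      · exact mem_union_right _ hxJ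
      · refine mem_union_left _ (mem_map.2 ⟨⟨x, hxJ⟩, ?_, rfl⟩)
        have h1 : (⟨x, hxJ⟩ : W) = ⟨c, hcJ⟩ := Subtype.ext (hcu x ⟨hxJ, hx⟩)
        rw [h1]; exact hcB
    · intro x hx
      by_cases hxJ : x ∈ J
      · exact mem_union_right _ hxJ
      · refine mem_union_left _ (mem_map.2 ⟨⟨x, hxJ⟩, ?_, rfl⟩)
        have h1 : (⟨x, hxJ⟩ : W) = ⟨c', hcJ'⟩ := Subtype.ext (hcu' x ⟨hxJ, hx⟩)
        rw [h1]; exact hcB'
    · have h1 : (B.map ι ∪ J).image σ ⊆ B.map ι ∪ J := by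
        intro x hx
        obtain ⟨y, hy, rfl⟩ := mem_image.1 hx
        rcases mem_union.1 hy with hy | hy
        · obtain ⟨w, hw, rfl⟩ := mem_map.1 hy
          exact mem_union_left _ (mem_map.2 ⟨σ' w, hBσ w hw, rfl⟩)
        · rw [hσJ y hy]; exact mem_union_right _ hy
      exact eq_of_subset_of_card_le h1 (by rw [card_image_of_injective _ σ.injective])
    · have h1 : (B.map ι ∪ J).image τ ⊆ B.map ι ∪ J := by
        intro x hx
        obtain ⟨y, hy, rfl⟩ := mem_image.1 hx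
        rcases mem_union.1 hy with hy | hy
        · obtain ⟨w, hw, rfl⟩ := mem_map.1 hy
          exact mem_union_left _ (mem_map.2 ⟨τ' w, hBτ w hw, rfl⟩)
        · rw [hτJ y hy]; exact mem_union_right _ hy
      exact eq_of_subset_of_card_le h1 (by rw [card_image_of_injective _ τ.injective])
  · intro N hN
    have hpow : ∀ (w : W) (k : ℕ), ((((τ' * σ') ^ k) w : W) : V) = ((τ * σ) ^ k) w.1 := by
      intro w k
      induction k with
      | zero => rfl
      | succ k ih =>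
        have e1 : ((τ' * σ') ^ (k + 1)) w = τ' (σ' (((τ' * σ') ^ k) w)) := by
          rw [pow_succ']; rfl
        have e2 : ((τ * σ) ^ (k + 1)) w.1 = τ (σ (((τ * σ) ^ k) w.1)) := by
          rw [pow_succ']; rfl
        rw [e1, e2, ← ih]
        rfl
    have hper : ∀ w : W, Sym.per σ' τ' w = N := by
      intro w
      have key : ∀ k : ℕ, (Sym.per σ' τ' w) ∣ k ↔ N ∣ k := by
        intro k
        rw [← hN w.1 w.2 k, ← hpow w k]
        have h1 := Sym.per_iff σ' τ' w (k : ℤ)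
        rw [zpow_natCast] at h1
        rw [← Int.natCast_dvd_natCast, ← h1]
        constructor
        · intro h; rw [h]
        · intro h; exact Subtype.ext h
      exact Nat.dvd_antisymm ((key N).2 dvd_rfl) ((key _).1 dvd_rfl)
    rw [← hSW.1 B hB]
    refine Sym.dvd_card hper B ?_
    have hg : ∀ x ∈ B, ∀ k : ℕ, ((τ' * σ') ^ k) x ∈ B := by
      intro x hx k
      induction k with
      | zero => simpa using hx
      | succ k ih =>
        rw [pow_succ', Equiv.Perm.mul_apply]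
        exact hBτ _ (hBσ _ ih)
    rintro x hx y ⟨k, rfl⟩
    have hNpos := Sym.per_pos σ' τ' x
    obtain ⟨m, hm⟩ : ∃ m : ℕ, (m : ℤ) = k % (Sym.per σ' τ' x : ℤ) :=
      ⟨(k % (Sym.per σ' τ' x : ℤ)).toNat, Int.toNat_of_nonneg (Int.emod_nonneg _ (by omega))⟩
    have h1 : k = m + Sym.per σ' τ' x * (k / Sym.per σ' τ' x) := by
      rw [hm]; exact (Int.emod_add_mul_ediv k _).symm
    rw [h1, zpow_add, Equiv.Perm.mul_apply, (Sym.per_iff σ' τ' x _).2 (dvd_mul_right _ _),
      zpow_natCast]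
    exact hg x hx m

end final

section abelian

variable {G : Type*} [AddCommGroup G] [Fintype G] [DecidableEq G] {q r j : ℕ}

theorem derived_sum {𝓑 : Finset (Finset (G ⊕ Fin j))}
    (hS : IsSteinerOn (G ⊕ Fin j) (q + j) (r + j) 𝓑)
    (hI : ∀ B ∈ 𝓑, ∀ b : G, B.image (Sum.map (fun x => b + x) id) ∈ 𝓑 ∧
      B.image (Sum.map (fun x => b - x) id) ∈ 𝓑) :
    ∃ 𝓓 : Finset (Finset G), IsSteinerOn G q r 𝓓 ∧ Inv 𝓓 := by
  classical
  let ι : G ↪ G ⊕ Fin j := Function.Embedding.inl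
  let J : Finset (G ⊕ Fin j) := univ.map (Function.Embedding.inr : Fin j ↪ G ⊕ Fin j)
  have hJc : J.card = j := by simp [J]
  have hJ : ∀ x, x ∈ J ↔ x ∉ Set.range ι := by
    intro x
    rcases x with x | x
    · simp [J, ι]
    · simp [J, ι]
  have hJm : ∀ x ∈ J, ∃ i : Fin j, x = Sum.inr i := by
    intro x hx
    obtain ⟨i, _, rfl⟩ := mem_map.1 hx
    exact ⟨i, rfl⟩
  refine ⟨der ι J 𝓑, derived hJ (by rw [hJc]; exact hS), ?_⟩
  intro B hB b
  constructor
  · refine der_image (f := Sum.map (fun x => b + x) id) (f' := fun x => b + x) ?_ ?_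
      (fun B hB => (hI B hB b).1) B hB
    · intro w; rfl
    · intro x hx
      obtain ⟨i, rfl⟩ := hJm x hx
      rfl
  · refine der_image (f := Sum.map (fun x => b - x) id) (f' := fun x => b - x) ?_ ?_
      (fun B hB => (hI B hB b).2) B hB
    · intro w; rfl
    · intro x hx
      obtain ⟨i, rfl⟩ := hJm x hx
      rfl

theorem abelian_even {𝓑 : Finset (Finset (G ⊕ Fin j))}
    (hS : IsSteinerOn (G ⊕ Fin j) (q + j) (r + j) 𝓑)
    (hI : ∀ B ∈ 𝓑, ∀ b : G, B.image (Sum.map (fun x => b + x) id) ∈ 𝓑 ∧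
      B.image (Sum.map (fun x => b - x) id) ∈ 𝓑)
    (hr : Even r) (hr2 : 2 ≤ r) (hrq : r < q) (hqn : q < Fintype.card G)
    (hcase : q = r + 1 ∨ (Odd q ∧ Odd (Fintype.card G))) :
    (∀ g : G, q • g = 0) ∧
      ((∀ p : ℕ, p.Prime → p ∣ Fintype.card G → r < p) →
        ∃ p e k : ℕ, p.Prime ∧ q = p ^ e ∧ Fintype.card G = q ^ k ∧ ∀ g : G, p • g = 0) := by
  obtain ⟨𝓓, hSD, hID⟩ := derived_sum hS hI
  have hodd : Odd q ∧ Odd (Fintype.card G) := by
    rcases hcase with h | h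
    · subst h
      refine ⟨Even.add_one hr, odd_card hSD hr hr2 hqn⟩
    · exact h
  have hst := fun g => exists_block_stable hSD hID hodd.2 hr hodd.1 hrq hqn g
  constructor
  · intro g
    obtain ⟨B, hB, _, hBg⟩ := hst g
    have h1 := order_dvd hBg
    rw [hSD.1 B hB] at h1
    exact addOrderOf_dvd_iff_nsmul_eq_zero.1 h1
  · intro hp
    exact structure_of_stable hSD hID (by omega) hqn (fun g _ => hst g) (fun g hg => order_ge hp g hg)

theorem abelian_two {𝓑 : Finset (Finset (G ⊕ Fin j))}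
    (hS : IsSteinerOn (G ⊕ Fin j) (q + j) (2 + j) 𝓑)
    (hI : ∀ B ∈ 𝓑, ∀ b : G, B.image (Sum.map (fun x => b + x) id) ∈ 𝓑 ∧
      B.image (Sum.map (fun x => b - x) id) ∈ 𝓑)
    (hq : 3 ≤ q) (hqn : q < Fintype.card G) :
    ∃ p e k : ℕ, p.Prime ∧ q = p ^ e ∧ Fintype.card G = q ^ k ∧ ∀ g : G, p • g = 0 := by
  obtain ⟨𝓓, hSD, hID⟩ := derived_sum hS hI
  refine structure_of_stable hSD hID (by omega) hqn (fun g hg => good_two hSD hID hq g hg) ?_
  intro g hg
  have h1 : addOrderOf g ≠ 1 := by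
    rw [Ne, AddMonoid.addOrderOf_eq_one_iff]; exact hg
  have h2 := addOrderOf_pos g
  omega

end abelian

theorem two_iff (q n : ℕ) (hq : 3 ≤ q) (hqn : q < n) :
    (∃ (G : Type) (_ : AddCommGroup G) (_ : Fintype G) (_ : DecidableEq G), Fintype.card G = n ∧
      ∃ 𝓑 : Finset (Finset G), IsSteinerOn G q 2 𝓑 ∧ Inv 𝓑) ↔
    IsPrimePow q ∧ ∃ k : ℕ, n = q ^ k := by
  constructor
  · rintro ⟨G, _, _, _, hG, 𝓑, hS, hI⟩
    obtain ⟨p, e, k, hp, hqp, hn, _⟩ := structure_of_stable hS hI (by omega) (by omega)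
      (fun g hg => good_two hS hI hq g hg) (by
        intro g hg
        have h1 : addOrderOf g ≠ 1 := by
          rw [Ne, AddMonoid.addOrderOf_eq_one_iff]; exact hg
        have h2 := addOrderOf_pos g
        omega)
    refine ⟨?_, k, by rw [← hG, hn]⟩
    rw [isPrimePow_nat_iff]
    refine ⟨p, e, hp, ?_, hqp.symm⟩
    rcases Nat.eq_zero_or_pos e with h | h
    · rw [h, pow_zero] at hqp; omega
    · exact h
  · rintro ⟨hq', k, hn⟩
    rw [isPrimePow_nat_iff] at hq'
    obtain ⟨p, e, hp, he, hqe⟩ := hq'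
    classical
    haveI : Fact p.Prime := ⟨hp⟩
    haveI : Fintype (GaloisField p e) := Fintype.ofFinite _
    have hcK : Fintype.card (GaloisField p e) = q := by
      rw [← Nat.card_eq_fintype_card, GaloisField.card p e (by omega), hqe]
    refine ⟨Fin k → GaloisField p e, inferInstance, inferInstance, inferInstance, ?_,
      lines (GaloisField p e) k, ?_, lines_inv⟩
    · rw [Fintype.card_fun, hcK, Fintype.card_fin, hn]
    · have := lines_steiner (K := GaloisField p e) (k := k)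
      rw [hcK] at this
      exact this

end Pool.Agent.W839.Dih
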