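import Pool.Agent.w839.DihBasic

/-!
Every element `g` of the group stabilises some block through `0`.
-/

set_option autoImplicit false

namespace Pool.Agent.W839.Dih

open Finset

section seg

variable {G : Type*} [AddCommGroup G] [DecidableEq G]

/-- the elements `y + i • g`, `i ∈ I` -/
def seg (g y : G) (I : Finset ℤ) : Finset G := I.image fun i => y + i • g

theorem mem_seg {g y x : G} {I : Finset ℤ} : x ∈ seg g y I ↔ ∃ i ∈ I, y + i • g = x := by
  simp [seg]

theorem card_seg {g y : G} {I : Finset ℤ} (a : ℤ)
    (hI : ∀ i ∈ I, a ≤ i ∧ i < a + addOrderOf g) : (seg g y I).card = I.card := by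
  apply card_image_of_injOn
  intro i hi j hj hij
  have h1 : (i - j) • g = 0 := by
    have : y + i • g = y + j • g := hij
    rw [sub_zsmul, ← sub_eq_add_neg, sub_eq_zero]
    exact add_left_cancel this
  have h2 : (addOrderOf g : ℤ) ∣ i - j := addOrderOf_dvd_iff_zsmul_eq_zero.2 h1
  obtain ⟨h3, h4⟩ := hI i hi
  obtain ⟨h5, h6⟩ := hI j hj
  have h7 : i - j = 0 := by
    apply Int.eq_zero_of_abs_lt_dvd h2
    rw [abs_lt]; constructor <;> omega
  omega

theorem seg_refl {g y y' b x : G} {I J : Finset ℤ} (c : ℤ) (hb : b = y + y' + c • g)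
    (hIJ : ∀ i ∈ I, c - i ∈ J) (hx : x ∈ seg g y I) : b - x ∈ seg g y' J := by
  obtain ⟨i, hi, rfl⟩ := mem_seg.1 hx
  refine mem_seg.2 ⟨c - i, hIJ i hi, ?_⟩
  rw [hb, sub_zsmul]; abel

end seg

variable {G : Type*} [AddCommGroup G] [Fintype G] [DecidableEq G] {q r : ℕ}
  {𝓑 : Finset (Finset G)}

/-- For every `g` some block through `0` is invariant under adding `g`. -/
theorem exists_block_stable (hS : IsSteinerOn G q r 𝓑) (hI : Inv 𝓑)
    (hodd : Odd (Fintype.card G)) (hr : Even r) (hq : Odd q) (hrq : r < q)
    (hqn : q < Fintype.card G) (g : G) :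
    ∃ B ∈ 𝓑, (0 : G) ∈ B ∧ ∀ x ∈ B, g + x ∈ B := by
  classical
  let H := AddSubgroup.zmultiples g
  have hgH : g ∈ H := AddSubgroup.mem_zmultiples g
  have hzH : ∀ i : ℤ, i • g ∈ H := fun i => zsmul_mem hgH i
  set N := addOrderOf g with hN
  have hNpos : 0 < N := addOrderOf_pos g
  have hNH : Nat.card H = N := Nat.card_zmultiples g
  have hcards : Fintype.card G = Fintype.card (G ⧸ H) * N := by
    have := AddSubgroup.card_eq_card_quotient_mul_card_addSubgroup H
    rw [hNH, Nat.card_eq_fintype_card, Nat.card_eq_fintype_card] at this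
    exact this
  set M := Fintype.card (G ⧸ H) with hM
  have hoddM : Odd M := by
    rw [hcards] at hodd
    exact (Nat.odd_mul.1 hodd).1
  have hoddN : Odd N := by
    rw [hcards] at hodd
    exact (Nat.odd_mul.1 hodd).2
  -- lifts of sets of cosets
  let lift : Finset (G ⧸ H) → Finset G := fun K => univ.filter fun x : G => (x : G ⧸ H) ∈ K
  have mem_lift : ∀ (K : Finset (G ⧸ H)) (x : G), x ∈ lift K ↔ (x : G ⧸ H) ∈ K := by
    intro K x; simp [lift]
  have card_lift : ∀ K : Finset (G ⧸ H), (lift K).card = N * K.card := by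
    intro K
    have := card_preimage_mk' H (K : Set (G ⧸ H))
    rw [hNH] at this
    have h2 : ((QuotientAddGroup.mk : G → G ⧸ H) ⁻¹' (K : Set (G ⧸ H))) = (lift K : Set G) := by
      ext x; simp [lift]
    rw [h2] at this
    simpa using this
  have mkH : ∀ (x h : G), h ∈ H → ((x + h : G) : G ⧸ H) = (x : G ⧸ H) := by
    intro x h hh
    rw [QuotientAddGroup.eq]
    have : -(x + h) + x = -h := by abel
    rw [this]; exact neg_mem hh
  have mk_of_mem : ∀ h : G, h ∈ H → ((h : G) : G ⧸ H) = 0 := by
    intro h hh
    exact (QuotientAddGroup.eq_zero_iff h).2 hh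
  have lift_refl : ∀ (K : Finset (G ⧸ H)), (∀ x ∈ K, -x ∈ K) → ∀ b ∈ H, ∀ x ∈ lift K,
      b - x ∈ lift K := by
    intro K hK b hb x hx
    rw [mem_lift] at hx ⊢
    have : ((b - x : G) : G ⧸ H) = -(x : G ⧸ H) := by
      rw [show b - x = -x + b by abel, mkH (-x) b hb]; rfl
    rw [this]; exact hK _ hx
  -- Euclidean division
  set j := (r + 1) / N with hj
  set ρ := (r + 1) % N with hρ
  have hdiv : N * j + ρ = r + 1 := Nat.div_add_mod (r + 1) N
  have hρN : ρ < N := Nat.mod_lt _ hNpos
  have hjM : j < M := by
    have h1 : N * j < N * M := by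
      calc N * j ≤ r + 1 := by omega
        _ ≤ q := hrq
        _ < Fintype.card G := hqn
        _ = N * M := by rw [hcards, mul_comm]
    exact Nat.lt_of_mul_lt_mul_left h1
  have hr1 : Odd (r + 1) := hr.add_one
  have h00 : (0 : G) + 0 = 0 := add_zero 0
  rcases Nat.even_or_odd j with hje | hjo
  · -- `j` even: a centred progression
    obtain ⟨s, hs⟩ := hje
    have hρo : Odd ρ := by
      rcases Nat.even_or_odd ρ with h | h
      · exfalso
        obtain ⟨a, ha⟩ := hr1
        obtain ⟨b, hb⟩ := h
        rw [hs, hb] at hdiv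
        have : N * (s + s) = 2 * (N * s) := by ring
        omega
      · exact h
    obtain ⟨m, hm⟩ := hρo
    obtain ⟨K, hKc, hK0, hKn⟩ := exists_symm (G := G ⧸ H) hoddM s (by omega)
    set P := seg g (0 : G) (Icc (-(m : ℤ)) m) with hP
    set P' := seg g (0 : G) (Icc (1 - (m : ℤ)) m) with hP'
    have hPc : P.card = 2 * m + 1 := by
      rw [hP, card_seg (-(m : ℤ))]
      · rw [Int.card_Icc]; omega
      · intro i hi
        rw [mem_Icc] at hi
        constructor
        · omega
        · omega
    have hPc' : P'.card = 2 * m := by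
      rw [hP', card_seg (-(m : ℤ))]
      · rw [Int.card_Icc]; omega
      · intro i hi
        rw [mem_Icc] at hi
        constructor
        · omega
        · omega
    have hPH : ∀ x ∈ P, x ∈ H := by
      intro x hx
      obtain ⟨i, _, rfl⟩ := mem_seg.1 hx
      rw [zero_add]; exact hzH i
    have hPP' : P' ⊆ P := by
      intro x hx
      obtain ⟨i, hi, rfl⟩ := mem_seg.1 hx
      rw [mem_Icc] at hi
      exact mem_seg.2 ⟨i, mem_Icc.2 ⟨by omega, hi.2⟩, rfl⟩
    have hdis : Disjoint (lift K) P := by
      rw [disjoint_left]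
      intro x hx hxP
      rw [mem_lift, mk_of_mem x (hPH x hxP)] at hx
      exact hK0 hx
    have h0P : (0 : G) ∈ P := mem_seg.2 ⟨0, mem_Icc.2 ⟨by omega, by omega⟩, by simp⟩
    set U := lift K ∪ P with hU
    have hUc : U.card = r + 1 := by
      rw [hU, card_union_of_disjoint hdis, card_lift, hKc, hPc]
      rw [hs] at hdiv
      have : N * (s + s) = N * (2 * s) := by ring
      omega
    have h0U : (0 : G) ∈ U := mem_union_right _ h0P
    have hSc : (U.erase 0).card = r := by
      rw [card_erase_of_mem h0U, hUc]; omega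
    have hSn : ∀ x ∈ U.erase 0, 0 - x ∈ U.erase 0 := by
      intro x hx
      rw [mem_erase] at hx ⊢
      refine ⟨fun h => hx.1 ?_, ?_⟩
      · have := sub_eq_zero.1 h; exact this.symm
      · rcases mem_union.1 hx.2 with h | h
        · exact mem_union_left _ (lift_refl K hKn 0 (zero_mem H) x h)
        · refine mem_union_right _ (seg_refl 0 (by simp) ?_ h)
          intro i hi
          rw [mem_Icc] at hi ⊢
          constructor <;> omega
    obtain ⟨B, ⟨hB, hSB⟩, _⟩ := hS.2 (U.erase 0) hSc
    have hBn := refl_stable hS hI hB hSB hSc.ge hSn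
    have h0B : (0 : G) ∈ B := by
      refine center_mem hodd ?_ hBn h00
      rw [hS.1 B hB]; exact hq
    have hUB : U ⊆ B := by
      intro x hx
      by_cases h : x = 0
      · rw [h]; exact h0B
      · exact hSB (mem_erase.2 ⟨h, hx⟩)
    have hTB : lift K ∪ P' ⊆ B := (union_subset_union_right hPP').trans hUB
    have hTc : r ≤ (lift K ∪ P').card := by
      rw [card_union_of_disjoint (disjoint_of_subset_right hPP' hdis), card_lift, hKc, hPc']
      rw [hs] at hdiv
      have : N * (s + s) = N * (2 * s) := by ring
      omega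
    have hTn : ∀ x ∈ lift K ∪ P', g - x ∈ lift K ∪ P' := by
      intro x hx
      rcases mem_union.1 hx with h | h
      · exact mem_union_left _ (lift_refl K hKn g hgH x h)
      · refine mem_union_right _ (seg_refl 1 (by simp) ?_ h)
        intro i hi
        rw [mem_Icc] at hi ⊢
        constructor <;> omega
    have hBg := refl_stable hS hI hB hTB hTc hTn
    refine ⟨B, hB, h0B, fun x hx => ?_⟩
    have h1 := hBg _ (hBn x hx)
    have h2 : g - (0 - x) = g + x := by abel
    rwa [h2] at h1
  · -- `j` odd
    obtain ⟨s, hs⟩ := hjo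
    have hρe : Even ρ := by
      rcases Nat.even_or_odd ρ with h | h
      · exact h
      · exfalso
        obtain ⟨a, ha⟩ := hr1
        obtain ⟨b, hb⟩ := h
        obtain ⟨c, hc⟩ := hoddN
        rw [hs, hb, hc] at hdiv
        have : (2 * c + 1) * (2 * s + 1) = 2 * (2 * c * s + c + s) + 1 := by ring
        omega
    obtain ⟨k, hk⟩ := hρe
    obtain ⟨K, hKc, hK0, hKn⟩ := exists_symm (G := G ⧸ H) hoddM s (by omega)
    set K0 := insert (0 : G ⧸ H) K with hK0def
    have hK0c : K0.card = 2 * s + 1 := by
      rw [hK0def, card_insert_of_notMem hK0, hKc]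
    have hK0n : ∀ x ∈ K0, -x ∈ K0 := by
      intro x hx
      rw [hK0def, mem_insert] at hx ⊢
      rcases hx with rfl | hx
      · left; exact neg_zero
      · right; exact hKn x hx
    have hHK0 : ∀ h ∈ H, h ∈ lift K0 := by
      intro h hh
      rw [mem_lift, mk_of_mem h hh, hK0def]
      exact mem_insert_self _ _
    rcases Nat.eq_zero_or_pos k with hk0 | hkpos
    · -- a union of cosets
      have hUc : (lift K0).card = r + 1 := by
        rw [card_lift, hK0c]
        rw [hs] at hdiv
        omega
      have h0U : (0 : G) ∈ lift K0 := hHK0 0 (zero_mem H)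
      have hSc : ((lift K0).erase 0).card = r := by
        rw [card_erase_of_mem h0U, hUc]; omega
      have hSn : ∀ x ∈ (lift K0).erase 0, 0 - x ∈ (lift K0).erase 0 := by
        intro x hx
        rw [mem_erase] at hx ⊢
        refine ⟨fun h => hx.1 ?_, ?_⟩
        · have := sub_eq_zero.1 h; exact this.symm
        · exact lift_refl K0 hK0n 0 (zero_mem H) x hx.2
      obtain ⟨B, ⟨hB, hSB⟩, _⟩ := hS.2 ((lift K0).erase 0) hSc
      have hBn := refl_stable hS hI hB hSB hSc.ge hSn
      have h0B : (0 : G) ∈ B := by
        refine center_mem hodd ?_ hBn h00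
        rw [hS.1 B hB]; exact hq
      have hUB : lift K0 ⊆ B := by
        intro x hx
        by_cases h : x = 0
        · rw [h]; exact h0B
        · exact hSB (mem_erase.2 ⟨h, hx⟩)
      refine ⟨B, hB, h0B, trans_stable hS hI hB hUB (by omega) ?_⟩
      intro x hx
      rw [mem_lift] at hx ⊢
      rw [show -g + x = x + -g by abel, mkH x (-g) (neg_mem hgH)]
      exact hx
    · -- two symmetric progressions in cosets outside
      have hex : ∃ d : G ⧸ H, d ∉ K0 := by
        by_contra hall
        push Not at hall
        have h1 : K0 = univ := by ext a; simp [hall a]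
        rw [h1, card_univ] at hK0c
        omega
      obtain ⟨d, hd⟩ := hex
      obtain ⟨y, hy⟩ := QuotientAddGroup.mk_surjective d
      have hdn : -d ∉ K0 := fun h => hd (by simpa using hK0n _ h)
      have hdd : d ≠ -d := by
        intro h
        apply hd
        have : d = 0 := by
          apply double_inj (G := G ⧸ H) hoddM
          rw [add_zero]
          nth_rewrite 2 [h]
          exact add_neg_cancel d
        rw [this, hK0def]; exact mem_insert_self _ _
      have hNk : 2 * k < N := by omega
      have hseg1 : ∀ (I : Finset ℤ) (x : G), x ∈ seg g y I → (x : G ⧸ H) = d := by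
        intro I x hx
        obtain ⟨i, _, rfl⟩ := mem_seg.1 hx
        rw [mkH y _ (hzH i)]; exact hy
      have hseg2 : ∀ (I : Finset ℤ) (x : G), x ∈ seg g (-y) I → (x : G ⧸ H) = -d := by
        intro I x hx
        obtain ⟨i, _, rfl⟩ := mem_seg.1 hx
        rw [mkH (-y) _ (hzH i), ← hy]; rfl
      have cardU : ∀ I J : Finset ℤ, (∀ i ∈ I, -(k : ℤ) ≤ i ∧ i ≤ k) →
          (∀ i ∈ J, -(k : ℤ) ≤ i ∧ i ≤ k) →
          (lift K0 ∪ seg g y I ∪ seg g (-y) J).card = N * (2 * s + 1) + I.card + J.card := by
        intro I J hI' hJ'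
        have d1 : Disjoint (lift K0) (seg g y I) := by
          rw [disjoint_left]
          intro x hx hx'
          rw [mem_lift, hseg1 I x hx'] at hx
          exact hd hx
        have d2 : Disjoint (lift K0 ∪ seg g y I) (seg g (-y) J) := by
          rw [disjoint_left]
          intro x hx hx'
          have h2 := hseg2 J x hx'
          rcases mem_union.1 hx with h | h
          · rw [mem_lift, h2] at h; exact hdn h
          · rw [hseg1 I x h] at h2; exact hdd h2
        rw [card_union_of_disjoint d2, card_union_of_disjoint d1, card_lift, hK0c,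
          card_seg (-(k : ℤ)), card_seg (-(k : ℤ))]
        · intro i hi; have := hJ' i hi; constructor <;> omega
        · intro i hi; have := hI' i hi; constructor <;> omega
      set I0 : Finset ℤ := Ico 0 k with hI0
      set J0 : Finset ℤ := Ioc (-(k : ℤ)) 0 with hJ0
      set J1 : Finset ℤ := Ioc (1 - (k : ℤ)) 1 with hJ1
      set J2 : Finset ℤ := Ioc (1 - (k : ℤ)) 0 with hJ2
      have cI0 : I0.card = k := by rw [hI0, Int.card_Ico]; omega
      have cJ0 : J0.card = k := by rw [hJ0, Int.card_Ioc]; omega
      have cJ1 : J1.card = k := by rw [hJ1, Int.card_Ioc]; omega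
      have cJ2 : J2.card = k - 1 := by rw [hJ2, Int.card_Ioc]; omega
      have bI0 : ∀ i ∈ I0, -(k : ℤ) ≤ i ∧ i ≤ k := by
        intro i hi; rw [hI0, mem_Ico] at hi; constructor <;> omega
      have bJ0 : ∀ i ∈ J0, -(k : ℤ) ≤ i ∧ i ≤ k := by
        intro i hi; rw [hJ0, mem_Ioc] at hi; constructor <;> omega
      have bJ1 : ∀ i ∈ J1, -(k : ℤ) ≤ i ∧ i ≤ k := by
        intro i hi; rw [hJ1, mem_Ioc] at hi; constructor <;> omega
      have bJ2 : ∀ i ∈ J2, -(k : ℤ) ≤ i ∧ i ≤ k := by
        intro i hi; rw [hJ2, mem_Ioc] at hi; constructor <;> omega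
      rw [hs] at hdiv
      -- the first block
      set U := lift K0 ∪ seg g y I0 ∪ seg g (-y) J0 with hU
      have hUc : U.card = r + 1 := by
        rw [hU, cardU I0 J0 bI0 bJ0, cI0, cJ0]; omega
      have h0U : (0 : G) ∈ U := mem_union_left _ (mem_union_left _ (hHK0 0 (zero_mem H)))
      have hSc : (U.erase 0).card = r := by
        rw [card_erase_of_mem h0U, hUc]; omega
      have hSn : ∀ x ∈ U.erase 0, 0 - x ∈ U.erase 0 := by
        intro x hx
        rw [mem_erase] at hx ⊢
        refine ⟨fun h => hx.1 ?_, ?_⟩
        · have := sub_eq_zero.1 h; exact this.symm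
        · rcases mem_union.1 hx.2 with h | h
          · rcases mem_union.1 h with h | h
            · exact mem_union_left _ (mem_union_left _ (lift_refl K0 hK0n 0 (zero_mem H) x h))
            · refine mem_union_right _ (seg_refl 0 (by simp) ?_ h)
              intro i hi
              rw [hI0, mem_Ico] at hi
              rw [hJ0, mem_Ioc]
              constructor <;> omega
          · refine mem_union_left _ (mem_union_right _ (seg_refl 0 (by simp) ?_ h))
            intro i hi
            rw [hJ0, mem_Ioc] at hi
            rw [hI0, mem_Ico]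
            constructor <;> omega
      obtain ⟨B, ⟨hB, hSB⟩, _⟩ := hS.2 (U.erase 0) hSc
      have hBn := refl_stable hS hI hB hSB hSc.ge hSn
      have h0B : (0 : G) ∈ B := by
        refine center_mem hodd ?_ hBn h00
        rw [hS.1 B hB]; exact hq
      have hUB : U ⊆ B := by
        intro x hx
        by_cases h : x = 0
        · rw [h]; exact h0B
        · exact hSB (mem_erase.2 ⟨h, hx⟩)
      -- the second block
      obtain ⟨t, ht⟩ := exists_half hodd g
      have htH : t • g ∈ H := nsmul_mem hgH t
      set U' := lift K0 ∪ seg g y I0 ∪ seg g (-y) J1 with hU'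
      have hUc' : U'.card = r + 1 := by
        rw [hU', cardU I0 J1 bI0 bJ1, cI0, cJ1]; omega
      have htU : t • g ∈ U' := mem_union_left _ (mem_union_left _ (hHK0 _ htH))
      have hSc' : (U'.erase (t • g)).card = r := by
        rw [card_erase_of_mem htU, hUc']; omega
      have hSn' : ∀ x ∈ U'.erase (t • g), g - x ∈ U'.erase (t • g) := by
        intro x hx
        rw [mem_erase] at hx ⊢
        refine ⟨fun h => hx.1 ?_, ?_⟩
        · have h1 : x = g - t • g := by rw [← h]; abel
          rw [h1]
          nth_rewrite 1 [← ht]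
          abel
        · rcases mem_union.1 hx.2 with h | h
          · rcases mem_union.1 h with h | h
            · exact mem_union_left _ (mem_union_left _ (lift_refl K0 hK0n g hgH x h))
            · refine mem_union_right _ (seg_refl 1 (by simp) ?_ h)
              intro i hi
              rw [hI0, mem_Ico] at hi
              rw [hJ1, mem_Ioc]
              constructor <;> omega
          · refine mem_union_left _ (mem_union_right _ (seg_refl 1 (by simp) ?_ h))
            intro i hi
            rw [hJ1, mem_Ioc] at hi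
            rw [hI0, mem_Ico]
            constructor <;> omega
      obtain ⟨B', ⟨hB', hSB'⟩, _⟩ := hS.2 (U'.erase (t • g)) hSc'
      have hBn' := refl_stable hS hI hB' hSB' hSc'.ge hSn'
      have htB : t • g ∈ B' := by
        refine center_mem hodd ?_ hBn' ht
        rw [hS.1 B' hB']; exact hq
      have hUB' : U' ⊆ B' := by
        intro x hx
        by_cases h : x = t • g
        · rw [h]; exact htB
        · exact hSB' (mem_erase.2 ⟨h, hx⟩)
      -- they share `r` points
      set T := lift K0 ∪ seg g y I0 ∪ seg g (-y) J2 with hT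
      have hTc : r ≤ T.card := by
        rw [hT, cardU I0 J2 bI0 bJ2, cI0, cJ2]; omega
      have hsub : ∀ J J' : Finset ℤ, J ⊆ J' → seg g (-y) J ⊆ seg g (-y) J' := by
        intro J J' h x hx
        obtain ⟨i, hi, rfl⟩ := mem_seg.1 hx
        exact mem_seg.2 ⟨i, h hi, rfl⟩
      have hTU : T ⊆ U := by
        apply union_subset_union_right
        apply hsub
        intro i hi
        rw [hJ2, mem_Ioc] at hi
        rw [hJ0, mem_Ioc]
        constructor <;> omega
      have hTU' : T ⊆ U' := by
        apply union_subset_union_right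
        apply hsub
        intro i hi
        rw [hJ2, mem_Ioc] at hi
        rw [hJ1, mem_Ioc]
        constructor <;> omega
      have hBB : B = B' := eq_of_common hS hB hB' (hTU.trans hUB) (hTU'.trans hUB') hTc
      refine ⟨B, hB, h0B, fun x hx => ?_⟩
      have h1 := hBn x hx
      rw [hBB] at h1 ⊢
      have h2 := hBn' _ h1
      have h3 : g - (0 - x) = g + x := by abel
      rwa [h3] at h2

end Pool.Agent.W839.Dih
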