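import Pool.Agent.w839.DihBasic

/-!
Two involutive automorphisms of a Steiner system with exactly one fixed point each.
-/

set_option autoImplicit false

namespace Pool.Agent.W839.Dih

open Finset

section pseg

variable {V : Type*} [DecidableEq V]

/-- the points `g ^ i y`, `i ∈ I` -/
def pseg (g : Equiv.Perm V) (y : V) (I : Finset ℤ) : Finset V := I.image fun i => (g ^ i) y

theorem mem_pseg {g : Equiv.Perm V} {y x : V} {I : Finset ℤ} :
    x ∈ pseg g y I ↔ ∃ i ∈ I, (g ^ i) y = x := by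
  simp [pseg]

theorem card_pseg {g : Equiv.Perm V} {N : ℕ} {y : V}
    (hper : ∀ (k : ℤ), (g ^ k) y = y ↔ (N : ℤ) ∣ k)
    {I : Finset ℤ} (a : ℤ) (hI : ∀ i ∈ I, a ≤ i ∧ i < a + N) :
    (pseg g y I).card = I.card := by
  apply card_image_of_injOn
  intro i hi j hj hij
  have h1 : (g ^ (i - j)) y = y := by
    have h : (g ^ i) y = (g ^ j) y := hij
    rw [zpow_sub, Equiv.Perm.mul_apply]
    have h2 : (g ^ i * (g ^ j)⁻¹) y = ((g ^ j)⁻¹ * g ^ i) y := by
      rw [← zpow_neg, ← zpow_add, ← zpow_add, add_comm]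
    rw [← Equiv.Perm.mul_apply, h2, Equiv.Perm.mul_apply, h]
    simp
  have h2 : (N : ℤ) ∣ i - j := (hper _).1 h1
  obtain ⟨h3, h4⟩ := hI i hi
  obtain ⟨h5, h6⟩ := hI j hj
  have h7 : i - j = 0 := by
    apply Int.eq_zero_of_abs_lt_dvd h2
    rw [abs_lt]; constructor <;> omega
  omega

theorem pseg_mono {g : Equiv.Perm V} {y : V} {I J : Finset ℤ} (h : I ⊆ J) :
    pseg g y I ⊆ pseg g y J := image_subset_image h

end pseg

/-- The data: two involutions `σ`, `τ` with exactly one fixed point each. -/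
structure Sym {V : Type*} (σ τ : Equiv.Perm V) (c c' : V) : Prop where
  hσ : ∀ x, σ (σ x) = x
  hτ : ∀ x, τ (τ x) = x
  hc : ∀ x, σ x = x ↔ x = c
  hc' : ∀ x, τ x = x ↔ x = c'

namespace Sym

variable {V : Type*} {σ τ : Equiv.Perm V} {c c' : V}

theorem sigma_pow (h : Sym σ τ c c') (i : ℤ) (x : V) :
    σ (((τ * σ) ^ i) x) = ((τ * σ) ^ (-i)) (σ x) := by
  have hσi : σ⁻¹ = σ := by
    ext x; rw [Equiv.Perm.inv_eq_iff_eq, h.hσ]
  have hτi : τ⁻¹ = τ := by
    ext x; rw [Equiv.Perm.inv_eq_iff_eq, h.hτ]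
  have h1 : σ * (τ * σ) * σ⁻¹ = (τ * σ)⁻¹ := by
    rw [mul_inv_rev, hσi, hτi]
    ext x
    simp only [Equiv.Perm.mul_apply, h.hσ]
  have h2 := conj_zpow (a := σ) (b := τ * σ) (i := i)
  rw [h1, inv_zpow] at h2
  have h3 : σ * (τ * σ) ^ i = (τ * σ) ^ (-i) * σ := by
    rw [zpow_neg, h2, inv_mul_cancel_right]
  calc σ (((τ * σ) ^ i) x) = (σ * (τ * σ) ^ i) x := rfl
    _ = ((τ * σ) ^ (-i) * σ) x := by rw [h3]
    _ = _ := rfl

theorem tau_pow (h : Sym σ τ c c') (i : ℤ) (x : V) :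
    τ (((τ * σ) ^ i) x) = ((τ * σ) ^ (1 - i)) (σ x) := by
  have h1 : τ (((τ * σ) ^ i) x) = (τ * σ) (σ (((τ * σ) ^ i) x)) := by
    rw [Equiv.Perm.mul_apply, h.hσ]
  rw [h1, h.sigma_pow, sub_eq_add_neg, zpow_one_add]
  rfl

theorem sigma_c (h : Sym σ τ c c') : σ c = c := (h.hc c).2 rfl
theorem tau_c' (h : Sym σ τ c c') : τ c' = c' := (h.hc' c').2 rfl

/-- two points on the same cycle -/
def Same (σ τ : Equiv.Perm V) (x y : V) : Prop := ∃ k : ℤ, ((τ * σ) ^ k) x = y

theorem same_refl (x : V) : Same σ τ x x := ⟨0, by simp⟩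

theorem same_symm {x y : V} (h : Same σ τ x y) : Same σ τ y x := by
  obtain ⟨k, rfl⟩ := h
  exact ⟨-k, by rw [← Equiv.Perm.mul_apply, ← zpow_add]; simp⟩

theorem same_trans {x y z : V} (h : Same σ τ x y) (h' : Same σ τ y z) : Same σ τ x z := by
  obtain ⟨k, rfl⟩ := h
  obtain ⟨l, rfl⟩ := h'
  exact ⟨l + k, by rw [zpow_add, Equiv.Perm.mul_apply]⟩

theorem same_sigma (h : Sym σ τ c c') {x y : V} (hxy : Same σ τ x y) :
    Same σ τ (σ x) (σ y) := by
  obtain ⟨k, rfl⟩ := hxy
  exact ⟨-k, (h.sigma_pow k x).symm⟩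

theorem tau_same (x : V) (h : Sym σ τ c c') : Same σ τ (σ x) (τ x) := by
  refine ⟨1, ?_⟩
  rw [zpow_one, Equiv.Perm.mul_apply, h.hσ]

section finite

variable [Fintype V] [DecidableEq V]

/-- the length of the cycle of `y` -/
noncomputable def per (σ τ : Equiv.Perm V) (y : V) : ℕ :=
  Function.minimalPeriod ((τ * σ) • ·) y

theorem per_iff (σ τ : Equiv.Perm V) (y : V) (k : ℤ) :
    ((τ * σ) ^ k) y = y ↔ (per σ τ y : ℤ) ∣ k :=
  MulAction.zpow_smul_eq_iff_minimalPeriod_dvd (a := τ * σ) (b := y) (n := k)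

theorem per_pos (σ τ : Equiv.Perm V) (y : V) : 0 < per σ τ y := by
  have h : NeZero (Function.minimalPeriod ((τ * σ) • ·) y) := MulAction.minimalPeriod_pos _ _
  exact Nat.pos_of_ne_zero h.out

/-- the cycle of `y` -/
noncomputable def cyc (σ τ : Equiv.Perm V) (y : V) : Finset V :=
  pseg (τ * σ) y (Ico 0 (per σ τ y : ℤ))

theorem card_cyc (y : V) : (cyc σ τ y).card = per σ τ y := by
  rw [cyc, card_pseg (per_iff σ τ y) 0]
  · rw [Int.card_Ico]; simp
  · intro i hi
    rw [mem_Ico] at hi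
    constructor
    · exact hi.1
    · omega

theorem mem_cyc {x y : V} : x ∈ cyc σ τ y ↔ Same σ τ y x := by
  rw [cyc, mem_pseg]
  constructor
  · rintro ⟨i, _, hi⟩; exact ⟨i, hi⟩
  · rintro ⟨k, rfl⟩
    have hN : (0 : ℤ) < per σ τ y := by exact_mod_cast per_pos σ τ y
    refine ⟨k % per σ τ y, mem_Ico.2 ⟨Int.emod_nonneg _ (by omega), Int.emod_lt_of_pos _ hN⟩, ?_⟩
    have h1 : k = k % per σ τ y + per σ τ y * (k / per σ τ y) :=
      (Int.emod_add_mul_ediv k _).symm
    conv_rhs => rw [h1, zpow_add, Equiv.Perm.mul_apply]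
    rw [(per_iff σ τ y (per σ τ y * (k / per σ τ y))).2 (dvd_mul_right _ _)]

theorem card_cyc_sigma (h : Sym σ τ c c') (y : V) : per σ τ (σ y) = per σ τ y := by
  have key : ∀ z : V, per σ τ (σ z) ∣ per σ τ z := by
    intro z
    have h1 : ((τ * σ) ^ (-(per σ τ z : ℤ))) (σ z) = σ z := by
      rw [← h.sigma_pow, (per_iff σ τ z _).2 (dvd_refl _)]
    rw [per_iff] at h1
    have h2 := dvd_neg.1 h1
    exact_mod_cast h2
  apply Nat.dvd_antisymm (key y)
  have := key (σ y)
  rwa [h.hσ] at this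

/-- a set with odd cardinality stable under an involution contains its unique fixed point -/
theorem fixed_mem {ρ : Equiv.Perm V} {a : V} (hρ : ∀ x, ρ (ρ x) = x) (ha : ∀ x, ρ x = x ↔ x = a)
    {B : Finset V} (hB : Odd B.card) (hs : ∀ x ∈ B, ρ x ∈ B) : a ∈ B := by
  by_contra hcB
  have hsum : ∑ _x ∈ B, (1 : ZMod 2) = 0 := by
    refine Finset.sum_involution (fun x _ => ρ x) ?_ ?_ ?_ ?_
    · intro x hx
      decide
    · intro x hx _ h
      exact hcB ((ha x).1 h ▸ hx)
    · intro x hx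
      exact hs x hx
    · intro x hx
      exact hρ x
  rw [Finset.sum_const, nsmul_eq_mul, mul_one, ZMod.natCast_eq_zero_iff_even] at hsum
  exact (Nat.not_even_iff_odd.2 hB) hsum

theorem even_of_notMem {ρ : Equiv.Perm V} {a : V} (hρ : ∀ x, ρ (ρ x) = x)
    (ha : ∀ x, ρ x = x ↔ x = a)
    {B : Finset V} (haB : a ∉ B) (hs : ∀ x ∈ B, ρ x ∈ B) : Even B.card := by
  by_contra hcB
  exact haB (fixed_mem hρ ha (Nat.not_even_iff_odd.1 hcB) hs)

theorem c_mem : c ∈ cyc σ τ c := mem_cyc.2 (same_refl c)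

theorem sigma_cyc_c (h : Sym σ τ c c') : ∀ x ∈ cyc σ τ c, σ x ∈ cyc σ τ c := by
  intro x hx
  have := h.same_sigma (mem_cyc.1 hx)
  rw [h.sigma_c] at this
  exact mem_cyc.2 this

theorem tau_of_sigma (h : Sym σ τ c c') {F : Finset V} (hg : ∀ x ∈ F, ∀ y, Same σ τ x y → y ∈ F)
    (hs : ∀ x ∈ F, σ x ∈ F) : ∀ x ∈ F, τ x ∈ F := fun x hx => hg _ (hs x hx) _ (tau_same x h)

theorem cyc_closed (z : V) : ∀ x ∈ cyc σ τ z, ∀ y, Same σ τ x y → y ∈ cyc σ τ z :=
  fun _ hx _ hy => mem_cyc.2 (same_trans (mem_cyc.1 hx) hy)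

theorem odd_per (h : Sym σ τ c c') : Odd (per σ τ c) := by
  have h1 : Even ((cyc σ τ c).erase c).card := by
    refine even_of_notMem (a := c) h.hσ h.hc (notMem_erase _ _) ?_
    intro x hx
    rw [mem_erase] at hx ⊢
    refine ⟨fun hx' => hx.1 ?_, h.sigma_cyc_c x hx.2⟩
    have := congrArg σ hx'
    rwa [h.hσ, h.sigma_c] at this
  rw [card_erase_of_mem c_mem, card_cyc] at h1
  have := per_pos σ τ c
  obtain ⟨a, ha⟩ := h1
  exact ⟨a, by omega⟩

theorem c'_mem (h : Sym σ τ c c') : c' ∈ cyc σ τ c := by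
  refine fixed_mem h.hτ h.hc' ?_ (h.tau_of_sigma (cyc_closed c) h.sigma_cyc_c)
  rw [card_cyc]; exact h.odd_per

/-- a cycle fixed by `σ` is the cycle of the fixed point -/
theorem same_c_of_sigma (h : Sym σ τ c c') {y : V}
    (hy : Same σ τ y (σ y)) : Same σ τ c y := by
  obtain ⟨k, hk⟩ := hy
  rcases Int.even_or_odd k with ⟨i, hi⟩ | ⟨i, hi⟩
  · have h1 : σ (((τ * σ) ^ i) y) = ((τ * σ) ^ i) y := by
      rw [h.sigma_pow, ← hk, ← Equiv.Perm.mul_apply, ← zpow_add]
      have h2 : -i + k = i := by omega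
      rw [h2]
    have h3 := (h.hc _).1 h1
    exact same_symm ⟨i, h3⟩
  · have h1 : τ (((τ * σ) ^ (i + 1)) y) = ((τ * σ) ^ (i + 1)) y := by
      rw [h.tau_pow, ← hk, ← Equiv.Perm.mul_apply, ← zpow_add]
      have h2 : 1 - (i + 1) + k = i + 1 := by omega
      rw [h2]
    have h3 := (h.hc' _).1 h1
    exact same_trans (mem_cyc.1 h.c'_mem) (same_symm ⟨i + 1, h3⟩)

theorem odd_card (h : Sym σ τ c c') : Odd (Fintype.card V) := by
  have h1 : Even ((univ : Finset V).erase c).card := by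
    refine even_of_notMem (a := c) h.hσ h.hc (notMem_erase _ _) ?_
    intro x hx
    rw [mem_erase] at hx ⊢
    refine ⟨fun hx' => hx.1 ?_, mem_univ _⟩
    have := congrArg σ hx'
    rwa [h.hσ, h.sigma_c] at this
  rw [card_erase_of_mem (mem_univ _), card_univ] at h1
  have hpos : 0 < Fintype.card V := Fintype.card_pos_iff.2 ⟨c⟩
  obtain ⟨a, ha⟩ := h1
  exact ⟨a, by omega⟩

/-- if all cycles have length `N`, a set closed under `g` has cardinality divisible by `N` -/
theorem dvd_card {N : ℕ} (hN : ∀ y, per σ τ y = N) (B : Finset V) :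
    (∀ x ∈ B, ∀ y, Same σ τ x y → y ∈ B) → N ∣ B.card := by
  induction B using Finset.strongInduction with
  | H B ih =>
    intro hB
    rcases B.eq_empty_or_nonempty with rfl | ⟨x, hx⟩
    · simp
    · have hsub : cyc σ τ x ⊆ B := fun y hy => hB x hx y (mem_cyc.1 hy)
      have hxc : x ∈ cyc σ τ x := mem_cyc.2 (same_refl x)
      have h1 : B \ cyc σ τ x ⊂ B := by
        rw [ssubset_iff_of_subset sdiff_subset]
        exact ⟨x, hx, fun hx' => (mem_sdiff.1 hx').2 hxc⟩
      have h2 := ih _ h1 (by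
        intro y hy z hz
        rw [mem_sdiff] at hy ⊢
        refine ⟨hB y hy.1 z hz, fun hz' => hy.2 ?_⟩
        exact mem_cyc.2 (same_trans (mem_cyc.1 hz') (same_symm hz)))
      rw [card_sdiff_of_subset hsub, card_cyc, hN] at h2
      have h3 : N ≤ B.card := by
        rw [← hN x, ← card_cyc]; exact card_le_card hsub
      have h4 : B.card = (B.card - N) + N := by omega
      rw [h4]
      exact dvd_add h2 (dvd_refl N)

/-- a maximal invariant union of cycles, disjoint from the cycle of `c`, of size at most `K` -/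
theorem exists_union (h : Sym σ τ c c') (K : ℕ) :
    ∃ F : Finset V, F.card ≤ K ∧ Even F.card ∧ Disjoint F (cyc σ τ c) ∧ (∀ x ∈ F, σ x ∈ F) ∧
      (∀ x ∈ F, ∀ y, Same σ τ x y → y ∈ F) ∧
      ∀ y, y ∉ F → y ∉ cyc σ τ c → K < F.card + 2 * per σ τ y := by
  classical
  let S : Finset (Finset V) := univ.filter fun F => F.card ≤ K ∧ Disjoint F (cyc σ τ c) ∧
      (∀ x ∈ F, σ x ∈ F) ∧ (∀ x ∈ F, ∀ y, Same σ τ x y → y ∈ F)
  have hS : S.Nonempty := ⟨∅, by simp [S]⟩
  obtain ⟨F, hF, hmax⟩ := S.exists_max_image (fun F => F.card) hS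
  simp only [S, mem_filter, mem_univ, true_and] at hF hmax
  obtain ⟨hFc, hFd, hFσ, hFg⟩ := hF
  refine ⟨F, hFc, ?_, hFd, hFσ, hFg, ?_⟩
  · refine even_of_notMem h.hσ h.hc ?_ hFσ
    intro hc
    exact (disjoint_left.1 hFd hc) c_mem
  intro y hyF hyC
  by_contra hle
  rw [not_lt] at hle
  have hσyF : σ y ∉ F := fun hx => hyF (by simpa [h.hσ] using hFσ _ hx)
  have hyne : ¬ Same σ τ y (σ y) := by
    intro hs'
    exact hyC (mem_cyc.2 (h.same_c_of_sigma hs'))
  have hd1 : Disjoint (cyc σ τ y) (cyc σ τ (σ y)) := by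
    rw [disjoint_left]
    intro x hx hx'
    exact hyne (same_trans (mem_cyc.1 hx) (same_symm (mem_cyc.1 hx')))
  have hd2 : Disjoint F (cyc σ τ y ∪ cyc σ τ (σ y)) := by
    rw [disjoint_left]
    intro x hx hx'
    rcases mem_union.1 hx' with hx' | hx'
    · exact hyF (hFg x hx y (same_symm (mem_cyc.1 hx')))
    · exact hσyF (hFg x hx _ (same_symm (mem_cyc.1 hx')))
  have hcard : (F ∪ (cyc σ τ y ∪ cyc σ τ (σ y))).card = F.card + 2 * per σ τ y := by
    rw [card_union_of_disjoint hd2, card_union_of_disjoint hd1, card_cyc, card_cyc,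
      h.card_cyc_sigma]
    ring
  have hpos := per_pos σ τ y
  have := hmax (F ∪ (cyc σ τ y ∪ cyc σ τ (σ y))) ⟨by omega, ?_, ?_, ?_⟩
  · omega
  · rw [disjoint_union_left, disjoint_union_left]
    refine ⟨hFd, ?_, ?_⟩
    · rw [disjoint_left]
      intro x hx hx'
      exact hyC (mem_cyc.2 (same_trans (mem_cyc.1 hx') (same_symm (mem_cyc.1 hx))))
    · rw [disjoint_left]
      intro x hx hx'
      apply hyC
      rw [mem_cyc]
      have h1 : Same σ τ c (σ y) :=
        same_trans (mem_cyc.1 hx') (same_symm (mem_cyc.1 hx))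
      have h2 := h.same_sigma h1
      rwa [h.sigma_c, h.hσ] at h2
  · intro x hx
    rcases mem_union.1 hx with hx | hx
    · exact mem_union_left _ (hFσ x hx)
    · refine mem_union_right _ ?_
      rcases mem_union.1 hx with hx | hx
      · exact mem_union_right _ (mem_cyc.2 (h.same_sigma (mem_cyc.1 hx)))
      · refine mem_union_left _ (mem_cyc.2 ?_)
        have := h.same_sigma (mem_cyc.1 hx)
        rwa [h.hσ] at this
  · intro x hx z hz
    rcases mem_union.1 hx with hx | hx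
    · exact mem_union_left _ (hFg x hx z hz)
    · refine mem_union_right _ ?_
      rcases mem_union.1 hx with hx | hx
      · exact mem_union_left _ (mem_cyc.2 (same_trans (mem_cyc.1 hx) hz))
      · exact mem_union_right _ (mem_cyc.2 (same_trans (mem_cyc.1 hx) hz))

theorem pseg_sigma (h : Sym σ τ c c') {y x : V} {I J : Finset ℤ} (hIJ : ∀ i ∈ I, -i ∈ J)
    (hx : x ∈ pseg (τ * σ) y I) : σ x ∈ pseg (τ * σ) (σ y) J := by
  obtain ⟨i, hi, rfl⟩ := mem_pseg.1 hx
  exact mem_pseg.2 ⟨-i, hIJ i hi, (h.sigma_pow i y).symm⟩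

theorem pseg_tau (h : Sym σ τ c c') {y x : V} {I J : Finset ℤ} (hIJ : ∀ i ∈ I, 1 - i ∈ J)
    (hx : x ∈ pseg (τ * σ) y I) : τ x ∈ pseg (τ * σ) (σ y) J := by
  obtain ⟨i, hi, rfl⟩ := mem_pseg.1 hx
  exact mem_pseg.2 ⟨1 - i, hIJ i hi, (h.tau_pow i y).symm⟩

variable {q r : ℕ} {𝓑 : Finset (Finset V)}

/-- a block containing `r` points permuted by the involutive automorphism `ρ` is `ρ`-stable -/
theorem stable {ρ : Equiv.Perm V} (hρ : ∀ x, ρ (ρ x) = x) (hS : IsSteinerOn V q r 𝓑)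
    (hI : ∀ B ∈ 𝓑, B.image ρ ∈ 𝓑) {B T : Finset V} (hB : B ∈ 𝓑)
    (hT : T ⊆ B) (hr : r ≤ T.card) (hTb : ∀ x ∈ T, ρ x ∈ T) :
    ∀ x ∈ B, ρ x ∈ B := by
  have h : B = B.image ρ := by
    refine eq_of_common hS hB (hI B hB) hT ?_ hr
    intro x hx
    exact mem_image.2 ⟨ρ x, hT (hTb x hx), hρ x⟩
  intro x hx
  rw [h]
  exact mem_image.2 ⟨x, hx, rfl⟩

/-- if `U` is a `ρ`-stable set of `r + 1` points containing the fixed point of `ρ`, then `U` lies
in a `ρ`-stable block -/
theorem block_of_stable {ρ : Equiv.Perm V} {a : V} (hρ : ∀ x, ρ (ρ x) = x)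
    (ha : ∀ x, ρ x = x ↔ x = a) (hS : IsSteinerOn V q r 𝓑)
    (hI : ∀ B ∈ 𝓑, B.image ρ ∈ 𝓑) (hq : Odd q) {U : Finset V} (hU : U.card = r + 1)
    (haU : a ∈ U) (hs : ∀ x ∈ U, ρ x ∈ U) :
    ∃ B ∈ 𝓑, U ⊆ B ∧ ∀ x ∈ B, ρ x ∈ B := by
  have hSc : (U.erase a).card = r := by
    rw [card_erase_of_mem haU, hU]; omega
  have hSn : ∀ x ∈ U.erase a, ρ x ∈ U.erase a := by
    intro x hx
    rw [mem_erase] at hx ⊢
    refine ⟨fun h => hx.1 ?_, hs x hx.2⟩
    have h1 := congrArg ρ h
    rwa [hρ, (ha a).2 rfl] at h1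
  obtain ⟨B, ⟨hB, hSB⟩, _⟩ := hS.2 (U.erase a) hSc
  have hBn := stable hρ hS hI hB hSB hSc.ge hSn
  have h0B : a ∈ B := by
    refine fixed_mem hρ ha ?_ hBn
    rw [hS.1 B hB]; exact hq
  refine ⟨B, hB, ?_, hBn⟩
  intro x hx
  by_cases h : x = a
  · rw [h]; exact h0B
  · exact hSB (mem_erase.2 ⟨h, hx⟩)

/-- **Two reversals fix a common block.** -/
theorem common_block (h : Sym σ τ c c') (hS : IsSteinerOn V q r 𝓑)
    (hσB : ∀ B ∈ 𝓑, B.image σ ∈ 𝓑) (hτB : ∀ B ∈ 𝓑, B.image τ ∈ 𝓑)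
    (hr : Even r) (hq : Odd q) (hn : r + 1 < Fintype.card V) :
    ∃ B ∈ 𝓑, c ∈ B ∧ c' ∈ B ∧ (∀ x ∈ B, σ x ∈ B) ∧ ∀ x ∈ B, τ x ∈ B := by
  suffices hmain : ∃ B ∈ 𝓑, (∀ x ∈ B, σ x ∈ B) ∧ ∀ x ∈ B, τ x ∈ B by
    obtain ⟨B, hB, h1, h2⟩ := hmain
    refine ⟨B, hB, fixed_mem h.hσ h.hc ?_ h1, fixed_mem h.hτ h.hc' ?_ h2, h1, h2⟩
    · rw [hS.1 B hB]; exact hq
    · rw [hS.1 B hB]; exact hq
  obtain ⟨m, hm⟩ := hr
  set N := per σ τ c with hNdef
  obtain ⟨e, he⟩ : Odd N := h.odd_per
  rcases lt_or_ge r N with hrN | hrN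
  · -- the cycle of `c` has more than `r` points
    have hseg : ∀ (I : Finset ℤ), (∀ i ∈ I, -(m : ℤ) ≤ i ∧ i ≤ m) →
        (pseg (τ * σ) c I).card = I.card := by
      intro I hI'
      refine card_pseg (per_iff σ τ c) (-(m : ℤ)) ?_
      intro i hi
      have := hI' i hi
      rw [← hNdef]
      constructor <;> omega
    set P := pseg (τ * σ) c (Icc (-(m : ℤ)) m) with hP
    set P' := pseg (τ * σ) c (Icc (1 - (m : ℤ)) m) with hP'
    have hPc : P.card = r + 1 := by
      rw [hP, hseg, Int.card_Icc]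
      · omega
      · intro i hi; rw [mem_Icc] at hi; exact hi
    have hPc' : P'.card = r := by
      rw [hP', hseg, Int.card_Icc]
      · omega
      · intro i hi; rw [mem_Icc] at hi; constructor <;> omega
    have hcP : c ∈ P := mem_pseg.2 ⟨0, mem_Icc.2 ⟨by omega, by omega⟩, by simp⟩
    have hPσ : ∀ x ∈ P, σ x ∈ P := by
      intro x hx
      have := h.pseg_sigma (J := Icc (-(m : ℤ)) m) (by
        intro i hi; rw [mem_Icc] at hi ⊢; constructor <;> omega) hx
      rwa [h.sigma_c] at this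
    obtain ⟨B, hB, hPB, hBσ⟩ := block_of_stable h.hσ h.hc hS hσB hq hPc hcP hPσ
    refine ⟨B, hB, hBσ, ?_⟩
    have hPP : P' ⊆ P := pseg_mono (by
      intro i hi; rw [mem_Icc] at hi ⊢; constructor <;> omega)
    refine stable h.hτ hS hτB hB (hPP.trans hPB) hPc'.ge ?_
    intro x hx
    have := h.pseg_tau (J := Icc (1 - (m : ℤ)) m) (by
        intro i hi; rw [mem_Icc] at hi ⊢; constructor <;> omega) hx
    rwa [h.sigma_c] at this
  · -- fill up with pairs of cycles
    have hCc : (cyc σ τ c).card = N := by rw [card_cyc]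
    obtain ⟨F, hFc, hFe, hFd, hFσ, hFg, hFmax⟩ := h.exists_union (r + 1 - N)
    obtain ⟨f, hf⟩ := hFe
    set F' := F ∪ cyc σ τ c with hF'
    have hF'c : F'.card = F.card + N := by
      rw [hF', card_union_of_disjoint hFd, hCc]
    have hF'σ : ∀ x ∈ F', σ x ∈ F' := by
      intro x hx
      rcases mem_union.1 hx with hx | hx
      · exact mem_union_left _ (hFσ x hx)
      · exact mem_union_right _ (h.sigma_cyc_c x hx)
    have hF'g : ∀ x ∈ F', ∀ y, Same σ τ x y → y ∈ F' := by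
      intro x hx y hy
      rcases mem_union.1 hx with hx | hx
      · exact mem_union_left _ (hFg x hx y hy)
      · exact mem_union_right _ (cyc_closed c x hx y hy)
    have hF'τ : ∀ x ∈ F', τ x ∈ F' := h.tau_of_sigma hF'g hF'σ
    have hcF' : c ∈ F' := mem_union_right _ c_mem
    have hc'F' : c' ∈ F' := mem_union_right _ h.c'_mem
    rcases Nat.eq_or_lt_of_le hFc with hFeq | hFlt
    · -- `F'` has exactly `r + 1` points
      have hF'r : F'.card = r + 1 := by omega
      obtain ⟨B, hB, hFB, hBσ⟩ := block_of_stable h.hσ h.hc hS hσB hq hF'r hcF' hF'σ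
      refine ⟨B, hB, hBσ, ?_⟩
      exact stable h.hτ hS hτB hB hFB (by omega) hF'τ
    · -- partial segments in a pair of cycles
      have hex : ∃ y, y ∉ F' := by
        by_contra hall
        push Not at hall
        have h1 : F' = univ := by ext a; simp [hall a]
        rw [h1, card_univ] at hF'c
        omega
      obtain ⟨y, hy⟩ := hex
      have hyF : y ∉ F := fun hh => hy (mem_union_left _ hh)
      have hyC : y ∉ cyc σ τ c := fun hh => hy (mem_union_right _ hh)
      have hmax := hFmax y hyF hyC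
      obtain ⟨l, hl⟩ : ∃ l : ℕ, r + 1 = F.card + N + 2 * l := ⟨m - e - f, by omega⟩
      have hlpos : 0 < l := by omega
      have hld : l < per σ τ y := by omega
      have hσyF : σ y ∉ F' := fun hx => hy (by simpa [h.hσ] using hF'σ _ hx)
      have hyne : ¬ Same σ τ y (σ y) := by
        intro hs'
        exact hyC (mem_cyc.2 (h.same_c_of_sigma hs'))
      have cardU : ∀ I J : Finset ℤ, (∀ i ∈ I, -(l : ℤ) < i ∧ i < l ∨ False) →
          (∃ a : ℤ, ∀ i ∈ J, a ≤ i ∧ i ≤ a + l) → (∀ i ∈ I, 0 ≤ i) →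
          (F' ∪ pseg (τ * σ) y I ∪ pseg (τ * σ) (σ y) J).card = F.card + N + I.card + J.card := by
        intro I J hI1 hJ' hI2
        obtain ⟨a, ha⟩ := hJ'
        have d1 : Disjoint F' (pseg (τ * σ) y I) := by
          rw [disjoint_left]
          intro x hx hx'
          obtain ⟨i, _, hi⟩ := mem_pseg.1 hx'
          exact hy (hF'g x hx y (same_symm ⟨i, hi⟩))
        have d2 : Disjoint (F' ∪ pseg (τ * σ) y I) (pseg (τ * σ) (σ y) J) := by
          rw [disjoint_left]
          intro x hx hx'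
          obtain ⟨j, _, hj⟩ := mem_pseg.1 hx'
          rcases mem_union.1 hx with h' | h'
          · exact hσyF (hF'g x h' _ (same_symm ⟨j, hj⟩))
          · obtain ⟨i, _, hi⟩ := mem_pseg.1 h'
            exact hyne (same_trans ⟨i, hi⟩ (same_symm ⟨j, hj⟩))
        rw [card_union_of_disjoint d2, card_union_of_disjoint d1, hF'c,
          card_pseg (per_iff σ τ y) 0, card_pseg (per_iff σ τ (σ y)) a]
        · intro i hi
          rw [h.card_cyc_sigma]
          have := ha i hi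
          constructor <;> omega
        · intro i hi
          have h1 := hI2 i hi
          rcases hI1 i hi with h2 | h2
          · constructor <;> omega
          · exact h2.elim
      set I0 : Finset ℤ := Ico 0 l with hI0
      set J0 : Finset ℤ := Ioc (-(l : ℤ)) 0 with hJ0
      set J1 : Finset ℤ := Ioc (1 - (l : ℤ)) 1 with hJ1
      set J2 : Finset ℤ := Ioc (1 - (l : ℤ)) 0 with hJ2
      have cI0 : I0.card = l := by rw [hI0, Int.card_Ico]; omega
      have cJ0 : J0.card = l := by rw [hJ0, Int.card_Ioc]; omega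
      have cJ1 : J1.card = l := by rw [hJ1, Int.card_Ioc]; omega
      have cJ2 : J2.card = l - 1 := by rw [hJ2, Int.card_Ioc]; omega
      have bI0 : ∀ i ∈ I0, -(l : ℤ) < i ∧ i < l ∨ False := by
        intro i hi; rw [hI0, mem_Ico] at hi; left; constructor <;> omega
      have bI0' : ∀ i ∈ I0, 0 ≤ i := by
        intro i hi; rw [hI0, mem_Ico] at hi; exact hi.1
      have bJ0 : ∃ a : ℤ, ∀ i ∈ J0, a ≤ i ∧ i ≤ a + l := by
        refine ⟨-(l : ℤ), ?_⟩
        intro i hi; rw [hJ0, mem_Ioc] at hi; constructor <;> omega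
      have bJ1 : ∃ a : ℤ, ∀ i ∈ J1, a ≤ i ∧ i ≤ a + l := by
        refine ⟨1 - (l : ℤ), ?_⟩
        intro i hi; rw [hJ1, mem_Ioc] at hi; constructor <;> omega
      have bJ2 : ∃ a : ℤ, ∀ i ∈ J2, a ≤ i ∧ i ≤ a + l := by
        refine ⟨1 - (l : ℤ), ?_⟩
        intro i hi; rw [hJ2, mem_Ioc] at hi; constructor <;> omega
      -- the first block
      set U := F' ∪ pseg (τ * σ) y I0 ∪ pseg (τ * σ) (σ y) J0 with hU
      have hUc : U.card = r + 1 := by
        rw [hU, cardU I0 J0 bI0 bJ0 bI0', cI0, cJ0]; omega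
      have hcU : c ∈ U := mem_union_left _ (mem_union_left _ hcF')
      have hUσ : ∀ x ∈ U, σ x ∈ U := by
        intro x hx
        rcases mem_union.1 hx with h' | h'
        · rcases mem_union.1 h' with h' | h'
          · exact mem_union_left _ (mem_union_left _ (hF'σ x h'))
          · refine mem_union_right _ (h.pseg_sigma ?_ h')
            intro i hi
            rw [hI0, mem_Ico] at hi
            rw [hJ0, mem_Ioc]
            constructor <;> omega
        · refine mem_union_left _ (mem_union_right _ ?_)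
          have := h.pseg_sigma (J := I0) (by
            intro i hi
            rw [hJ0, mem_Ioc] at hi
            rw [hI0, mem_Ico]
            constructor <;> omega) h'
          rwa [h.hσ] at this
      obtain ⟨B, hB, hUB, hBσ⟩ := block_of_stable h.hσ h.hc hS hσB hq hUc hcU hUσ
      -- the second block
      set U' := F' ∪ pseg (τ * σ) y I0 ∪ pseg (τ * σ) (σ y) J1 with hU'
      have hUc' : U'.card = r + 1 := by
        rw [hU', cardU I0 J1 bI0 bJ1 bI0', cI0, cJ1]; omega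
      have hcU' : c' ∈ U' := mem_union_left _ (mem_union_left _ hc'F')
      have hUτ : ∀ x ∈ U', τ x ∈ U' := by
        intro x hx
        rcases mem_union.1 hx with h' | h'
        · rcases mem_union.1 h' with h' | h'
          · exact mem_union_left _ (mem_union_left _ (hF'τ x h'))
          · refine mem_union_right _ (h.pseg_tau ?_ h')
            intro i hi
            rw [hI0, mem_Ico] at hi
            rw [hJ1, mem_Ioc]
            constructor <;> omega
        · refine mem_union_left _ (mem_union_right _ ?_)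
          have := h.pseg_tau (J := I0) (by
            intro i hi
            rw [hJ1, mem_Ioc] at hi
            rw [hI0, mem_Ico]
            constructor <;> omega) h'
          rwa [h.hσ] at this
      obtain ⟨B', hB', hUB', hBτ⟩ := block_of_stable h.hτ h.hc' hS hτB hq hUc' hcU' hUτ
      -- they share `r` points
      set T := F' ∪ pseg (τ * σ) y I0 ∪ pseg (τ * σ) (σ y) J2 with hT
      have hTc : r ≤ T.card := by
        rw [hT, cardU I0 J2 bI0 bJ2 bI0', cI0, cJ2]; omega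
      have hTU : T ⊆ U := by
        apply union_subset_union_right
        apply pseg_mono
        intro i hi
        rw [hJ2, mem_Ioc] at hi
        rw [hJ0, mem_Ioc]
        constructor <;> omega
      have hTU' : T ⊆ U' := by
        apply union_subset_union_right
        apply pseg_mono
        intro i hi
        rw [hJ2, mem_Ioc] at hi
        rw [hJ1, mem_Ioc]
        constructor <;> omega
      have hBB : B = B' := eq_of_common hS hB hB' (hTU.trans hUB) (hTU'.trans hUB') hTc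
      exact ⟨B, hB, hBσ, hBB ▸ hBτ⟩

end finite

end Sym

end Pool.Agent.W839.Dih
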